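import Mathlib

/-!
# The indexed preorder of the `D_st`-topos: definitions

Codes of finite sets, Kleene application, the set `Sig` of triples, the entailment relation `Ent`,
the logical connectives by their universal properties, first-order formulas and their
interpretation over the constant objects.
-/

namespace Pool.Agent.R625.Dst

open Nat.Partrec (Code)
open FirstOrder.Language

/-- The finite set (given as a list) coded by the number `a`. -/
def els (a : ℕ) : List ℕ := Denumerable.ofNat (List ℕ) a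

/-- `X^*`: the codes of finite subsets of `X`. -/
def FinSub (X : Set ℕ) : Set ℕ := {a | ∀ x ∈ els a, x ∈ X}

/-- Kleene application `n(m)`. -/
def app (n m : ℕ) : Part ℕ := (Denumerable.ofNat Code n).eval m

/-- The set `Σ_st` of triples `(X, Y, R)` with `R ⊆ X^* × Y` upward closed in the first
coordinate (for the inclusion preorder of codes of finite sets). -/
structure Sig where
  pos : Set ℕ
  neg : Set ℕ
  rel : ℕ → ℕ → Prop
  dom : ∀ a y, rel a y → a ∈ FinSub pos ∧ y ∈ neg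
  up : ∀ a b y, rel a y → b ∈ FinSub pos → (∀ x ∈ els a, x ∈ els b) → rel b y

/-- The entailment `φ ⊢_I ψ` of the indexed preorder. -/
def Ent {I : Type} (φ ψ : I → Sig) : Prop :=
  ∃ ep em : ℕ,
    (∀ i, ∀ a ∈ FinSub (φ i).pos, ∃ r ∈ app ep a, r ∈ FinSub (ψ i).pos) ∧
    (∀ i, ∀ a ∈ FinSub (φ i).pos, ∀ b ∈ (ψ i).neg,
      ∃ s ∈ app em (Nat.pair a b), s ∈ FinSub (φ i).neg) ∧
    (∀ i, ∀ a ∈ FinSub (φ i).pos, ∀ b ∈ (ψ i).neg, ∀ r ∈ app ep a, ∀ s ∈ app em (Nat.pair a b),
      (∀ c ∈ els s, (φ i).rel a c) → (ψ i).rel r b)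

/-- Truth `(∅, ∅, ∅)`. -/
def topS : Sig where
  pos := ∅
  neg := ∅
  rel := fun _ _ => False
  dom := fun _ _ h => h.elim
  up := fun _ _ _ h _ _ => h

/-- Falsity `(∅, {0}, ∅)`. -/
def botS : Sig where
  pos := ∅
  neg := {0}
  rel := fun _ _ => False
  dom := fun _ _ h => h.elim
  up := fun _ _ _ h _ _ => h

/-- `D` is a least predicate over `I`. -/
def IsBot {I : Type} (D : I → Sig) : Prop := ∀ θ : I → Sig, Ent D θ

/-- `D` is a meet of `φ` and `ψ` over `I`. -/
def IsMeet {I : Type} (φ ψ D : I → Sig) : Prop :=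
  ∀ θ : I → Sig, Ent θ D ↔ (Ent θ φ ∧ Ent θ ψ)

/-- `D` is a join of `φ` and `ψ` over `I`. -/
def IsJoin {I : Type} (φ ψ D : I → Sig) : Prop :=
  ∀ θ : I → Sig, Ent D θ ↔ (Ent φ θ ∧ Ent ψ θ)

/-- `D` is a Heyting implication of `φ` and `ψ` over `I`: `θ ⊢ D` iff `θ ∧ φ ⊢ ψ`. -/
def IsImp {I : Type} (φ ψ D : I → Sig) : Prop :=
  ∀ θ m : I → Sig, IsMeet θ φ m → (Ent θ D ↔ Ent m ψ)

/-- `D` is a right adjoint value of reindexing along `f` at `φ`: `D = ∀_f φ`. -/
def IsAll {I J : Type} (f : I → J) (φ : I → Sig) (D : J → Sig) : Prop :=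
  ∀ θ : J → Sig, Ent θ D ↔ Ent (θ ∘ f) φ

/-- `D` is a left adjoint value of reindexing along `f` at `φ`: `D = ∃_f φ`. -/
def IsEx {I J : Type} (f : I → J) (φ : I → Sig) (D : J → Sig) : Prop :=
  ∀ θ : J → Sig, Ent D θ ↔ Ent φ (θ ∘ f)

/-- The predicate `∃_{A ↪ I} ⊤` (see `isEx_img`): at `i ∈ A` it is `({0}, {0}, {(a, 0) : 0 ∈ a})`,
which is equivalent to truth, and at `i ∉ A` it is falsity. -/
def img (I : Type) (A : Set I) (i : I) : Sig where
  pos := {x | x = 0 ∧ i ∈ A}
  neg := {0}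
  rel := fun a y => a ∈ FinSub {x | x = 0 ∧ i ∈ A} ∧ y = 0 ∧ 0 ∈ els a
  dom := fun _ _ h => ⟨h.1, h.2.1⟩
  up := fun _ _ _ h hb hs => ⟨hb, h.2.1, hs _ h.2.2⟩

open Classical in
/-- The literal predicate: truth `(∅, ∅, ∅)` on `A` and falsity `(∅, {0}, ∅)` off `A`. -/
noncomputable def lit (I : Type) (A : Set I) (i : I) : Sig := if i ∈ A then topS else botS

/-- The internal predicate: `(∅, {0}, {(∅, 0)})` (equivalent to truth) on `A`, falsity off `A`. -/
def int (I : Type) (A : Set I) (i : I) : Sig where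
  pos := ∅
  neg := {0}
  rel := fun a y => a ∈ FinSub ∅ ∧ y = 0 ∧ i ∈ A
  dom := fun _ _ h => ⟨h.1, h.2.1⟩
  up := fun _ _ _ h hb _ => ⟨hb, h.2⟩

/-- Equivalence of predicates. -/
def Equ {I : Type} (φ ψ : I → Sig) : Prop := Ent φ ψ ∧ Ent ψ φ

/-- First-order formulas with intuitionistic connectives over the language `L`, with free variables
among `0, …, n - 1`. The quantifiers bind the variable `0` and shift the others. -/
inductive Fml (L : FirstOrder.Language.{0, 0}) : ℕ → Type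
  | eq {n : ℕ} (s t : L.Term (Fin n)) : Fml L n
  | rel {n k : ℕ} (R : L.Relations k) (ts : Fin k → L.Term (Fin n)) : Fml L n
  | bot {n : ℕ} : Fml L n
  | and {n : ℕ} (φ ψ : Fml L n) : Fml L n
  | or {n : ℕ} (φ ψ : Fml L n) : Fml L n
  | imp {n : ℕ} (φ ψ : Fml L n) : Fml L n
  | all {n : ℕ} (φ : Fml L (n + 1)) : Fml L n
  | ex {n : ℕ} (φ : Fml L (n + 1)) : Fml L n

variable {L : FirstOrder.Language.{0, 0}}

/-- Satisfaction `M ⊨ φ(v)` in `Sets`. -/
def Sat (M : Type) [L.Structure M] : {n : ℕ} → Fml L n → (Fin n → M) → Prop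
  | _, .eq s t, v => s.realize v = t.realize v
  | _, .rel R ts, v => Structure.RelMap R (fun i => (ts i).realize v)
  | _, .bot, _ => False
  | _, .and φ ψ, v => Sat M φ v ∧ Sat M ψ v
  | _, .or φ ψ, v => Sat M φ v ∨ Sat M ψ v
  | _, .imp φ ψ, v => Sat M φ v → Sat M ψ v
  | _, .all φ, v => ∀ x : M, Sat M φ (Fin.cons x v)
  | _, .ex φ, v => ∃ x : M, Sat M φ (Fin.cons x v)

/-- The projection `M^(n+1) → M^n` forgetting the variable `0`. -/
def tl {M : Type} {n : ℕ} (w : Fin (n + 1) → M) : Fin n → M := fun i => w i.succ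

/-- `Interp κ M φ D` says that the predicate `D` over `M^n` interprets the formula `φ`: atomic
formulas are interpreted by reindexing, along the terms, the predicates `κ A` of the diagonal `A`
of `M × M` and of the relations `A ⊆ M^k`; connectives and quantifiers are interpreted by the
Heyting operations and the adjoints of reindexing along the projections of the indexed preorder. -/
def Interp (κ : (I : Type) → Set I → I → Sig) (M : Type) [L.Structure M] :
    {n : ℕ} → Fml L n → ((Fin n → M) → Sig) → Prop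
  | _, .eq s t, D => D = fun v => κ (M × M) {p | p.1 = p.2} (s.realize v, t.realize v)
  | _, .rel (k := k) R ts, D => D = fun v =>
      κ (Fin k → M) {w | Structure.RelMap R w} (fun i => (ts i).realize v)
  | _, .bot, D => IsBot D
  | _, .and φ ψ, D => ∃ P Q, Interp κ M φ P ∧ Interp κ M ψ Q ∧ IsMeet P Q D
  | _, .or φ ψ, D => ∃ P Q, Interp κ M φ P ∧ Interp κ M ψ Q ∧ IsJoin P Q D
  | _, .imp φ ψ, D => ∃ P Q, Interp κ M φ P ∧ Interp κ M ψ Q ∧ IsImp P Q D
  | _, .all φ, D => ∃ P, Interp κ M φ P ∧ IsAll tl P D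
  | _, .ex φ, D => ∃ P, Interp κ M φ P ∧ IsEx tl P D

/-- `D(v)` holds: `⊤ ⊢ D(v)` over the one-element set. -/
def Holds {I : Type} (D : I → Sig) (v : I) : Prop :=
  Ent (fun _ : Unit => topS) (fun _ : Unit => D v)

/-- `κ` preserves first-order logic. -/
def Preserves (κ : (I : Type) → Set I → I → Sig) : Prop :=
  ∀ (L : FirstOrder.Language.{0, 0}) (M : Type) [L.Structure M] (n : ℕ) (φ : Fml L n) (v : Fin n → M)
    (D : (Fin n → M) → Sig), Interp κ M φ D → Sat M φ v → Holds D v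

/-- `κ` reflects first-order logic. -/
def Reflects (κ : (I : Type) → Set I → I → Sig) : Prop :=
  ∀ (L : FirstOrder.Language.{0, 0}) (M : Type) [L.Structure M] (n : ℕ) (φ : Fml L n) (v : Fin n → M)
    (D : (Fin n → M) → Sig), Interp κ M φ D → Holds D v → Sat M φ v

/-- The sentence `∀ x y, x = y ∨ ¬ x = y`. -/
def decEq (L : FirstOrder.Language.{0, 0}) : Fml L 0 :=
  .all (.all (.or (.eq (Term.var 0) (Term.var 1)) (.imp (.eq (Term.var 0) (Term.var 1)) .bot)))

/-- The sentence `¬ ∀ x y, x = y ∨ ¬ x = y`. -/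
def notDecEq (L : FirstOrder.Language.{0, 0}) : Fml L 0 := .imp (decEq L) .bot

/-- `E` is a partial equivalence predicate on `X`, that is, `(X, E)` is an object of the topos:
`E(x, y) ⊢ E(y, x)` and `E(x, y) ∧ E(y, z) ⊢ E(x, z)`. -/
def IsObj {X : Type} (E : X × X → Sig) : Prop :=
  Ent E (fun p => E (p.2, p.1)) ∧
  ∀ m : X × X × X → Sig,
    IsMeet (fun t : X × X × X => E (t.1, t.2.1)) (fun t : X × X × X => E (t.2.1, t.2.2)) m →
    Ent m (fun t : X × X × X => E (t.1, t.2.2))

/-- Each value of `κ I A` is equivalent, as a truth value, to truth on `A` and to falsity off `A`. -/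
def Pointwise (κ : (I : Type) → Set I → I → Sig) : Prop :=
  ∀ (I : Type) (A : Set I) (i : I),
    (i ∈ A → Equ (fun _ : Unit => κ I A i) (fun _ : Unit => topS)) ∧
    (i ∉ A → Equ (fun _ : Unit => κ I A i) (fun _ : Unit => botS))

/-- The diagonal of `X × X`. -/
def diag (X : Type) : Set (X × X) := {p | p.1 = p.2}

end Pool.Agent.R625.Dst
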