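import Mathlib
import Pool.Agent.R625.DstDefs

/-!
# The indexed preorder of the `D_st`-topos

Basic definitions: codes of finite sets, Kleene application, the set `Sig` of triples, and the
entailment relation `Ent`, together with the universal properties of the logical connectives.
-/

namespace Pool.Agent.R625.Dst

open Nat.Partrec (Code)

/-- The code of a list. -/
def code (l : List ℕ) : ℕ := Encodable.encode l

@[simp] theorem els_code (l : List ℕ) : els (code l) = l := by
  simp [els, code]

theorem els_zero : els 0 = [] := by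
  have : code [] = 0 := by simp [code]
  rw [← this, els_code]

theorem computable_els : Computable els := Computable.ofNat (List ℕ)

theorem computable_code : Computable code := Computable.encode

theorem eq_zero_of_els_nil {a : ℕ} (h : els a = []) : a = 0 := by
  have h1 : code (els a) = a := by simp [els, code]
  rw [← h1, h]
  simp [code]

theorem exists_app {f : ℕ →. ℕ} (hf : Partrec f) : ∃ e : ℕ, ∀ n, app e n = f n := by
  obtain ⟨c, hc⟩ := Code.exists_code.1 (Partrec.nat_iff.1 hf)
  refine ⟨Encodable.encode c, fun n => ?_⟩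
  simp [app, hc]

theorem partrec_app (e : ℕ) : Partrec (app e) := by
  have : Nat.Partrec (Denumerable.ofNat Code e).eval := Code.exists_code.2 ⟨_, rfl⟩
  exact Partrec.nat_iff.2 this

/-- Introduction of an entailment from partial recursive functions. -/
theorem Ent.intro {I : Type} {φ ψ : I → Sig} (f g : ℕ →. ℕ) (hf : Partrec f) (hg : Partrec g)
    (h1 : ∀ i, ∀ a ∈ FinSub (φ i).pos, ∃ r ∈ f a, r ∈ FinSub (ψ i).pos)
    (h2 : ∀ i, ∀ a ∈ FinSub (φ i).pos, ∀ b ∈ (ψ i).neg, ∃ s ∈ g (Nat.pair a b), s ∈ FinSub (φ i).neg ∧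
      ((∀ c ∈ els s, (φ i).rel a c) → ∀ r ∈ f a, (ψ i).rel r b)) : Ent φ ψ := by
  obtain ⟨ep, hp⟩ := exists_app hf
  obtain ⟨em, hm⟩ := exists_app hg
  refine ⟨ep, em, ?_, ?_, ?_⟩
  · intro i a ha
    rw [hp]
    exact h1 i a ha
  · intro i a ha b hb
    rw [hm]
    obtain ⟨s, hs, hs1, -⟩ := h2 i a ha b hb
    exact ⟨s, hs, hs1⟩
  · intro i a ha b hb r hr s hs
    rw [hp] at hr
    rw [hm] at hs
    obtain ⟨s', hs', -, hs1⟩ := h2 i a ha b hb
    have := Part.mem_unique hs hs'
    subst this
    exact fun h => hs1 h r hr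

/-- Introduction of an entailment from total computable functions. -/
theorem Ent.intro' {I : Type} {φ ψ : I → Sig} (f : ℕ → ℕ) (g : ℕ → ℕ) (hf : Computable f)
    (hg : Computable g)
    (h1 : ∀ i, ∀ a ∈ FinSub (φ i).pos, f a ∈ FinSub (ψ i).pos)
    (h2 : ∀ i, ∀ a ∈ FinSub (φ i).pos, ∀ b ∈ (ψ i).neg, g (Nat.pair a b) ∈ FinSub (φ i).neg)
    (h3 : ∀ i, ∀ a ∈ FinSub (φ i).pos, ∀ b ∈ (ψ i).neg,
      (∀ c ∈ els (g (Nat.pair a b)), (φ i).rel a c) → (ψ i).rel (f a) b) : Ent φ ψ := by
  refine Ent.intro (fun n => Part.some (f n)) (fun n => Part.some (g n)) hf hg ?_ ?_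
  · intro i a ha
    exact ⟨f a, Part.mem_some _, h1 i a ha⟩
  · intro i a ha b hb
    refine ⟨_, Part.mem_some _, h2 i a ha b hb, fun h r hr => ?_⟩
    rw [Part.mem_some_iff] at hr
    rw [hr]
    exact h3 i a ha b hb h

/-- Elimination of an entailment. -/
theorem Ent.elim {I : Type} {φ ψ : I → Sig} (h : Ent φ ψ) :
    ∃ f g : ℕ →. ℕ, Partrec f ∧ Partrec g ∧
    (∀ i, ∀ a ∈ FinSub (φ i).pos, ∃ r ∈ f a, r ∈ FinSub (ψ i).pos) ∧
    (∀ i, ∀ a ∈ FinSub (φ i).pos, ∀ b ∈ (ψ i).neg, ∃ s ∈ g (Nat.pair a b), s ∈ FinSub (φ i).neg ∧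
      ((∀ c ∈ els s, (φ i).rel a c) → ∀ r ∈ f a, (ψ i).rel r b)) := by
  obtain ⟨ep, em, h1, h2, h3⟩ := h
  refine ⟨app ep, app em, partrec_app ep, partrec_app em, h1, ?_⟩
  intro i a ha b hb
  obtain ⟨s, hs, hs1⟩ := h2 i a ha b hb
  exact ⟨s, hs, hs1, fun h r hr => h3 i a ha b hb r hr s hs h⟩

theorem Ent.refl {I : Type} (φ : I → Sig) : Ent φ φ := by
  refine Ent.intro' (fun a => a) (fun n => code [n.unpair.2]) Computable.id ?_ ?_ ?_ ?_
  · exact computable_code.comp (Computable.list_cons.comp
      (Computable.snd.comp Computable.unpair) (Computable.const []))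
  · intro i a ha; exact ha
  · intro i a ha b hb
    simp only [FinSub, Nat.unpair_pair, els_code, Set.mem_ofPred_eq, List.mem_singleton]
    rintro x rfl; exact hb
  · intro i a ha b hb h
    simp only [Nat.unpair_pair, els_code, List.mem_singleton] at h
    exact h b rfl

theorem Ent.comp {I J : Type} {φ ψ : I → Sig} (h : Ent φ ψ) (f : J → I) :
    Ent (φ ∘ f) (ψ ∘ f) := by
  obtain ⟨ep, em, h1, h2, h3⟩ := h
  exact ⟨ep, em, fun i => h1 (f i), fun i => h2 (f i), fun i => h3 (f i)⟩

/-- Collecting the values of a partial function over a finite set. -/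
def col (g : ℕ →. ℕ) (p : ℕ × ℕ) : Part ℕ :=
  Nat.rec (Part.some 0) (fun y IH => IH.bind fun t =>
    (g (Nat.pair p.1 ((els p.2).getD y 0))).map fun s => code (els s ++ els t)) (els p.2).length

theorem partrec_col {g : ℕ →. ℕ} (hg : Partrec g) : Partrec (col g) := by
  have hlen : Computable (fun p : ℕ × ℕ => (els p.2).length) :=
    Computable.list_length.comp (computable_els.comp Computable.snd)
  have h0 : Partrec (fun _ : ℕ × ℕ => Part.some 0) := Computable.const 0
  have hh : Partrec₂ (fun (p : ℕ × ℕ) (q : ℕ × ℕ) =>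
      (g (Nat.pair p.1 ((els p.2).getD q.1 0))).map fun s => code (els s ++ els q.2)) := by
    have h1 : Computable (fun z : (ℕ × ℕ) × (ℕ × ℕ) =>
        Nat.pair z.1.1 ((els z.1.2).getD z.2.1 0)) := by
      have ha : Computable (fun z : (ℕ × ℕ) × (ℕ × ℕ) => (els z.1.2).getD z.2.1 0) :=
        (Primrec.list_getD 0).to_comp.comp
          (computable_els.comp (Computable.snd.comp Computable.fst))
          (Computable.fst.comp Computable.snd)
      exact (Primrec₂.natPair.to_comp).comp (Computable.fst.comp Computable.fst) ha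
    have h2 : Partrec (fun z : (ℕ × ℕ) × (ℕ × ℕ) =>
        g (Nat.pair z.1.1 ((els z.1.2).getD z.2.1 0))) := hg.comp h1
    have h3 : Computable₂ (fun (z : (ℕ × ℕ) × (ℕ × ℕ)) (s : ℕ) => code (els s ++ els z.2.2)) := by
      refine computable_code.comp (Computable.list_append.comp ?_ ?_)
      · exact computable_els.comp Computable.snd
      · exact computable_els.comp (Computable.snd.comp (Computable.snd.comp Computable.fst))
    exact h2.map h3
  exact Partrec.nat_rec hlen h0 hh

theorem col_spec (g : ℕ →. ℕ) (a l : ℕ)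
    (h : ∀ c ∈ els l, ∃ s, s ∈ g (Nat.pair a c)) :
    ∃ u ∈ col g (a, l), (∀ x ∈ els u, ∃ c ∈ els l, ∃ s ∈ g (Nat.pair a c), x ∈ els s) ∧
      (∀ c ∈ els l, ∀ s ∈ g (Nat.pair a c), ∀ x ∈ els s, x ∈ els u) := by
  have key : ∀ k, k ≤ (els l).length →
      ∃ u ∈ (Nat.rec (Part.some 0) (fun y IH => IH.bind fun t =>
        (g (Nat.pair a ((els l).getD y 0))).map fun s => code (els s ++ els t)) k : Part ℕ),
      (∀ x ∈ els u, ∃ c ∈ (els l).take k, ∃ s ∈ g (Nat.pair a c), x ∈ els s) ∧
      (∀ c ∈ (els l).take k, ∀ s ∈ g (Nat.pair a c), ∀ x ∈ els s, x ∈ els u) := by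
    intro k
    induction k with
    | zero =>
      intro _
      refine ⟨0, Part.mem_some _, ?_, ?_⟩
      · intro x hx; simp [els_zero] at hx
      · intro c hc; simp at hc
    | succ k ih =>
      intro hk
      obtain ⟨u, hu, hu1, hu2⟩ := ih (by omega)
      have hk' : k < (els l).length := by omega
      have hget : (els l).getD k 0 = (els l)[k] := by
        simp [List.getD_eq_getElem?_getD, hk']
      obtain ⟨s, hs⟩ := h (els l)[k] (List.getElem_mem hk')
      refine ⟨code (els s ++ els u), ?_, ?_, ?_⟩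
      · rw [Part.mem_bind_iff]
        refine ⟨u, hu, ?_⟩
        rw [hget]
        exact Part.mem_map _ hs
      · intro x hx
        rw [els_code, List.mem_append] at hx
        rw [List.take_succ_eq_append_getElem hk']
        rcases hx with hx | hx
        · exact ⟨(els l)[k], List.mem_append_right _ (List.mem_singleton.2 rfl), s, hs, hx⟩
        · obtain ⟨c, hc, hc'⟩ := hu1 x hx
          exact ⟨c, List.mem_append_left _ hc, hc'⟩
      · intro c hc s' hs' x hx
        rw [List.take_succ_eq_append_getElem hk', List.mem_append] at hc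
        rw [els_code, List.mem_append]
        rcases hc with hc | hc
        · exact Or.inr (hu2 c hc s' hs' x hx)
        · rw [List.mem_singleton] at hc
          subst hc
          have := Part.mem_unique hs' hs
          subst this
          exact Or.inl hx
  obtain ⟨u, hu, hu1, hu2⟩ := key (els l).length le_rfl
  refine ⟨u, hu, ?_, ?_⟩
  · simpa using hu1
  · simpa using hu2

theorem Ent.trans {I : Type} {φ ψ χ : I → Sig} (h : Ent φ ψ) (h' : Ent ψ χ) : Ent φ χ := by
  obtain ⟨f, g, hf, hg, h1, h2⟩ := h.elim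
  obtain ⟨f', g', hf', hg', h1', h2'⟩ := h'.elim
  have hF : Partrec (fun a => (f a).bind f') := hf.bind (hf'.comp Computable.snd)
  have hG : Partrec (fun n : ℕ => ((f n.unpair.1).bind fun r =>
      g' (Nat.pair r n.unpair.2)).bind fun s => col g (n.unpair.1, s)) := by
    have a1 : Computable (fun n : ℕ => n.unpair.1) := Computable.fst.comp Computable.unpair
    have a2 : Computable (fun n : ℕ => n.unpair.2) := Computable.snd.comp Computable.unpair
    refine Partrec.bind (Partrec.bind (hf.comp a1) ?_) ?_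
    · exact hg'.comp ((Primrec₂.natPair.to_comp).comp Computable.snd (a2.comp Computable.fst))
    · exact (partrec_col hg).comp (Computable.pair (a1.comp Computable.fst) Computable.snd)
  refine Ent.intro _ _ hF hG ?_ ?_
  · intro i a ha
    obtain ⟨r, hr, hr'⟩ := h1 i a ha
    obtain ⟨t, ht, ht'⟩ := h1' i r hr'
    exact ⟨t, Part.mem_bind hr ht, ht'⟩
  · intro i a ha b hb
    obtain ⟨r, hr, hr'⟩ := h1 i a ha
    obtain ⟨s, hs, hs1, hs2⟩ := h2' i r hr' b hb
    have hcol := col_spec g a s (fun c hc => by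
      obtain ⟨v, hv, -⟩ := h2 i a ha c (hs1 c hc)
      exact ⟨v, hv⟩)
    obtain ⟨u, hu, hu1, hu2⟩ := hcol
    refine ⟨u, ?_, ?_, ?_⟩
    · simp only [Nat.unpair_pair]
      exact Part.mem_bind (Part.mem_bind hr hs) hu
    · intro x hx
      obtain ⟨c, hc, v, hv, hxv⟩ := hu1 x hx
      obtain ⟨v', hv', hv1, -⟩ := h2 i a ha c (hs1 c hc)
      have := Part.mem_unique hv hv'
      subst this
      exact hv1 x hxv
    · intro hall t ht
      obtain ⟨r', hr1, hr2⟩ := Part.mem_bind_iff.1 ht
      have := Part.mem_unique hr1 hr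
      subst this
      refine hs2 (fun c hc => ?_) t hr2
      obtain ⟨v, hv, hv1, hv2⟩ := h2 i a ha c (hs1 c hc)
      exact hv2 (fun d hd => hall d (hu2 c hc v hv d hd)) r' hr

end Pool.Agent.R625.Dst
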