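import Mathlib
import Pool.Agent.R625.DstBasic

/-!
# Connectives of the indexed preorder by universal properties, and three kinds of atomic predicates
-/

namespace Pool.Agent.R625.Dst

/-! ### Basic facts -/

theorem zero_mem_star (X : Set ℕ) : 0 ∈ FinSub X := by
  intro x hx
  rw [els_zero] at hx
  exact absurd hx (List.not_mem_nil)

theorem star_empty {a : ℕ} (h : a ∈ FinSub ∅) : a = 0 := by
  apply eq_zero_of_els_nil
  rw [List.eq_nil_iff_forall_not_mem]
  intro x hx
  exact h x hx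

theorem mem_star_code {X : Set ℕ} {l : List ℕ} : code l ∈ FinSub X ↔ ∀ x ∈ l, x ∈ X := by
  simp [FinSub]

theorem computable_fst : Computable (fun n : ℕ => n.unpair.1) :=
  Computable.fst.comp Computable.unpair

theorem computable_snd : Computable (fun n : ℕ => n.unpair.2) :=
  Computable.snd.comp Computable.unpair

/-- The disjoint sum `X + Y`. -/
def Plus (X Y : Set ℕ) : Set ℕ := {x | (∃ c ∈ X, x = Nat.pair 0 c) ∨ (∃ c ∈ Y, x = Nat.pair 1 c)}

theorem pair0_mem {X Y : Set ℕ} {c : ℕ} : Nat.pair 0 c ∈ Plus X Y ↔ c ∈ X := by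
  constructor
  · rintro (⟨d, hd, h⟩ | ⟨d, hd, h⟩)
    · rw [Nat.pair_eq_pair] at h
      rw [h.2]; exact hd
    · rw [Nat.pair_eq_pair] at h
      exact absurd h.1 (by decide)
  · intro h
    exact Or.inl ⟨c, h, rfl⟩

theorem pair1_mem {X Y : Set ℕ} {c : ℕ} : Nat.pair 1 c ∈ Plus X Y ↔ c ∈ Y := by
  constructor
  · rintro (⟨d, hd, h⟩ | ⟨d, hd, h⟩)
    · rw [Nat.pair_eq_pair] at h
      exact absurd h.1 (by decide)
    · rw [Nat.pair_eq_pair] at h
      rw [h.2]; exact hd
  · intro h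
    exact Or.inr ⟨c, h, rfl⟩

/-- The component `{x | (k, x) ∈ a}` of a finite set. -/
def prj (k a : ℕ) : ℕ :=
  code ((els a).filterMap fun y => if y.unpair.1 = k then some y.unpair.2 else none)

theorem mem_prj {k a x : ℕ} : x ∈ els (prj k a) ↔ Nat.pair k x ∈ els a := by
  unfold prj
  rw [els_code, List.mem_filterMap]
  constructor
  · rintro ⟨y, hy, h⟩
    split_ifs at h with hk
    · rw [Option.some.injEq] at h
      rw [← hk, ← h, Nat.pair_unpair]
      exact hy
  · intro h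
    exact ⟨_, h, by simp⟩

theorem computable_prj (k : ℕ) : Computable (prj k) := by
  have h : Primrec (fun a : ℕ => (els a).filterMap fun y =>
      if y.unpair.1 = k then some y.unpair.2 else none) := by
    refine Primrec.listFilterMap (Primrec.ofNat (List ℕ)) ?_
    refine Primrec.ite ?_ ?_ (Primrec.const none)
    · exact Primrec.eq.comp (Primrec.fst.comp (Primrec.unpair.comp Primrec.snd)) (Primrec.const k)
    · exact Primrec.option_some.comp (Primrec.snd.comp (Primrec.unpair.comp Primrec.snd))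
  exact computable_code.comp h.to_comp

theorem prj_mem_star0 {X Y : Set ℕ} {a : ℕ} (h : a ∈ FinSub (Plus X Y)) : prj 0 a ∈ FinSub X := by
  intro x hx
  exact pair0_mem.1 (h _ (mem_prj.1 hx))

theorem prj_mem_star1 {X Y : Set ℕ} {a : ℕ} (h : a ∈ FinSub (Plus X Y)) : prj 1 a ∈ FinSub Y := by
  intro x hx
  exact pair1_mem.1 (h _ (mem_prj.1 hx))

/-- Tagging a finite set. -/
def tag (k a : ℕ) : ℕ := code ((els a).map (Nat.pair k))

theorem computable_tag (k : ℕ) : Computable (tag k) := by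
  have h : Primrec (fun a : ℕ => (els a).map (Nat.pair k)) :=
    Primrec.list_map (Primrec.ofNat (List ℕ)) (Primrec₂.natPair.comp (Primrec.const k) Primrec.snd)
  exact computable_code.comp h.to_comp

theorem mem_tag {k a x : ℕ} : x ∈ els (tag k a) ↔ ∃ c ∈ els a, x = Nat.pair k c := by
  simp [tag, eq_comm]

/-- Union of finite sets. -/
def uni (a b : ℕ) : ℕ := code (els a ++ els b)

theorem computable_uni : Computable₂ uni :=
  computable_code.comp (Computable.list_append.comp (computable_els.comp Computable.fst)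
    (computable_els.comp Computable.snd))

theorem mem_uni {a b x : ℕ} : x ∈ els (uni a b) ↔ x ∈ els a ∨ x ∈ els b := by
  simp [uni]

/-- The explicit meet of two truth values. -/
def meetS (p q : Sig) : Sig where
  pos := Plus p.pos q.pos
  neg := Plus p.neg q.neg
  rel := fun a y => a ∈ FinSub (Plus p.pos q.pos) ∧
    ((∃ c, y = Nat.pair 0 c ∧ p.rel (prj 0 a) c) ∨ (∃ c, y = Nat.pair 1 c ∧ q.rel (prj 1 a) c))
  dom := by
    rintro a y ⟨ha, (⟨c, rfl, h⟩ | ⟨c, rfl, h⟩)⟩
    · exact ⟨ha, pair0_mem.2 (p.dom _ _ h).2⟩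
    · exact ⟨ha, pair1_mem.2 (q.dom _ _ h).2⟩
  up := by
    rintro a b y ⟨ha, h⟩ hb hs
    refine ⟨hb, ?_⟩
    rcases h with ⟨c, rfl, h⟩ | ⟨c, rfl, h⟩
    · refine Or.inl ⟨c, rfl, p.up _ _ _ h (prj_mem_star0 hb) ?_⟩
      intro x hx
      exact mem_prj.2 (hs _ (mem_prj.1 hx))
    · refine Or.inr ⟨c, rfl, q.up _ _ _ h (prj_mem_star1 hb) ?_⟩
      intro x hx
      exact mem_prj.2 (hs _ (mem_prj.1 hx))

theorem meetS_rel0 {p q : Sig} {a c : ℕ} :
    (meetS p q).rel a (Nat.pair 0 c) ↔ a ∈ FinSub (Plus p.pos q.pos) ∧ p.rel (prj 0 a) c := by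
  constructor
  · rintro ⟨ha, (⟨d, h, h'⟩ | ⟨d, h, h'⟩)⟩
    · rw [Nat.pair_eq_pair] at h
      rw [h.2]; exact ⟨ha, h'⟩
    · rw [Nat.pair_eq_pair] at h
      exact absurd h.1 (by decide)
  · rintro ⟨ha, h⟩
    exact ⟨ha, Or.inl ⟨c, rfl, h⟩⟩

theorem meetS_rel1 {p q : Sig} {a c : ℕ} :
    (meetS p q).rel a (Nat.pair 1 c) ↔ a ∈ FinSub (Plus p.pos q.pos) ∧ q.rel (prj 1 a) c := by
  constructor
  · rintro ⟨ha, (⟨d, h, h'⟩ | ⟨d, h, h'⟩)⟩
    · rw [Nat.pair_eq_pair] at h
      exact absurd h.1 (by decide)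
    · rw [Nat.pair_eq_pair] at h
      rw [h.2]; exact ⟨ha, h'⟩
  · rintro ⟨ha, h⟩
    exact ⟨ha, Or.inr ⟨c, rfl, h⟩⟩

/-- The explicit meet of two predicates. -/
def meet {I : Type} (φ ψ : I → Sig) : I → Sig := fun i => meetS (φ i) (ψ i)

theorem meet_left {I : Type} (φ ψ : I → Sig) : Ent (meet φ ψ) φ := by
  refine Ent.intro' (prj 0) (fun n => code [Nat.pair 0 n.unpair.2]) (computable_prj 0) ?_ ?_ ?_ ?_
  · exact computable_code.comp (Computable.list_cons.comp
      ((Primrec₂.natPair.to_comp).comp (Computable.const 0) computable_snd) (Computable.const []))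
  · intro i a ha
    exact prj_mem_star0 ha
  · intro i a ha b hb
    rw [mem_star_code]
    simp only [Nat.unpair_pair, List.mem_singleton]
    rintro x rfl
    exact pair0_mem.2 hb
  · intro i a ha b hb h
    simp only [Nat.unpair_pair, els_code, List.mem_singleton] at h
    exact (meetS_rel0.1 (h _ rfl)).2

theorem meet_right {I : Type} (φ ψ : I → Sig) : Ent (meet φ ψ) ψ := by
  refine Ent.intro' (prj 1) (fun n => code [Nat.pair 1 n.unpair.2]) (computable_prj 1) ?_ ?_ ?_ ?_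
  · exact computable_code.comp (Computable.list_cons.comp
      ((Primrec₂.natPair.to_comp).comp (Computable.const 1) computable_snd) (Computable.const []))
  · intro i a ha
    exact prj_mem_star1 ha
  · intro i a ha b hb
    rw [mem_star_code]
    simp only [Nat.unpair_pair, List.mem_singleton]
    rintro x rfl
    exact pair1_mem.2 hb
  · intro i a ha b hb h
    simp only [Nat.unpair_pair, els_code, List.mem_singleton] at h
    exact (meetS_rel1.1 (h _ rfl)).2

theorem meet_intro {I : Type} {θ φ ψ : I → Sig} (h : Ent θ φ) (h' : Ent θ ψ) :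
    Ent θ (meet φ ψ) := by
  obtain ⟨f, g, hf, hg, h1, h2⟩ := h.elim
  obtain ⟨f', g', hf', hg', h1', h2'⟩ := h'.elim
  have hF : Partrec (fun a => (f a).bind fun r => (f' a).map fun s => uni (tag 0 r) (tag 1 s)) := by
    refine hf.bind (Partrec.map (hf'.comp Computable.fst) ?_)
    exact computable_uni.comp ((computable_tag 0).comp (Computable.snd.comp Computable.fst))
      ((computable_tag 1).comp Computable.snd)
  have hG : Partrec (fun n : ℕ => cond (decide (n.unpair.2.unpair.1 = 0))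
      (g (Nat.pair n.unpair.1 n.unpair.2.unpair.2))
      (g' (Nat.pair n.unpair.1 n.unpair.2.unpair.2))) := by
    have hp : Computable (fun n : ℕ => Nat.pair n.unpair.1 n.unpair.2.unpair.2) :=
      (Primrec₂.natPair.to_comp).comp computable_fst (computable_snd.comp computable_snd)
    refine Partrec.cond ?_ (hg.comp hp) (hg'.comp hp)
    have : Primrec (fun n : ℕ => decide (n.unpair.2.unpair.1 = 0)) := by
      have h0 : PrimrecPred (fun n : ℕ => n.unpair.2.unpair.1 = 0) :=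
        Primrec.eq.comp (Primrec.fst.comp (Primrec.unpair.comp
          (Primrec.snd.comp Primrec.unpair))) (Primrec.const 0)
      exact PrimrecPred.decide h0
    exact this.to_comp
  refine Ent.intro _ _ hF hG ?_ ?_
  · intro i a ha
    obtain ⟨r, hr, hr'⟩ := h1 i a ha
    obtain ⟨s, hs, hs'⟩ := h1' i a ha
    refine ⟨_, Part.mem_bind hr (Part.mem_map _ hs), ?_⟩
    intro x hx
    rw [mem_uni, mem_tag, mem_tag] at hx
    rcases hx with ⟨c, hc, rfl⟩ | ⟨c, hc, rfl⟩
    · exact pair0_mem.2 (hr' c hc)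
    · exact pair1_mem.2 (hs' c hc)
  · intro i a ha b hb
    obtain ⟨r, hr, hr'⟩ := h1 i a ha
    obtain ⟨s, hs, hs'⟩ := h1' i a ha
    have hst : uni (tag 0 r) (tag 1 s) ∈ FinSub (Plus (φ i).pos (ψ i).pos) := by
      intro x hx
      rw [mem_uni, mem_tag, mem_tag] at hx
      rcases hx with ⟨c, hc, rfl⟩ | ⟨c, hc, rfl⟩
      · exact pair0_mem.2 (hr' c hc)
      · exact pair1_mem.2 (hs' c hc)
    have hval : ∀ t ∈ ((f a).bind fun r => (f' a).map fun s => uni (tag 0 r) (tag 1 s)),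
        t = uni (tag 0 r) (tag 1 s) := by
      intro t ht
      exact Part.mem_unique ht (Part.mem_bind hr (Part.mem_map _ hs))
    rcases hb with ⟨c, hc, rfl⟩ | ⟨c, hc, rfl⟩
    · obtain ⟨u, hu, hu1, hu2⟩ := h2 i a ha c hc
      refine ⟨u, ?_, hu1, ?_⟩
      · simpa using hu
      · intro hall t ht
        rw [hval t ht]
        refine meetS_rel0.2 ⟨hst, (φ i).up _ _ _ (hu2 hall r hr) (prj_mem_star0 hst) ?_⟩
        intro x hx
        rw [mem_prj, mem_uni, mem_tag]
        exact Or.inl ⟨x, hx, rfl⟩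
    · obtain ⟨u, hu, hu1, hu2⟩ := h2' i a ha c hc
      refine ⟨u, ?_, hu1, ?_⟩
      · simpa using hu
      · intro hall t ht
        rw [hval t ht]
        refine meetS_rel1.2 ⟨hst, (ψ i).up _ _ _ (hu2 hall s hs) (prj_mem_star1 hst) ?_⟩
        intro x hx
        rw [mem_prj, mem_uni, mem_tag, mem_tag]
        exact Or.inr ⟨x, hx, rfl⟩

theorem isMeet_meet {I : Type} (φ ψ : I → Sig) : IsMeet φ ψ (meet φ ψ) := by
  intro θ
  constructor
  · intro h
    exact ⟨h.trans (meet_left φ ψ), h.trans (meet_right φ ψ)⟩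
  · rintro ⟨h, h'⟩
    exact meet_intro h h'

theorem Equ.refl {I : Type} (φ : I → Sig) : Equ φ φ := ⟨Ent.refl φ, Ent.refl φ⟩

theorem Equ.symm {I : Type} {φ ψ : I → Sig} (h : Equ φ ψ) : Equ ψ φ := ⟨h.2, h.1⟩

theorem Equ.trans {I : Type} {φ ψ χ : I → Sig} (h : Equ φ ψ) (h' : Equ ψ χ) : Equ φ χ :=
  ⟨h.1.trans h'.1, h'.2.trans h.2⟩

theorem Equ.comp {I J : Type} {φ ψ : I → Sig} (h : Equ φ ψ) (f : J → I) :
    Equ (φ ∘ f) (ψ ∘ f) := ⟨h.1.comp f, h.2.comp f⟩

theorem IsMeet.mono {I : Type} {P Q D P' Q' D' : I → Sig} (h : IsMeet P Q D)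
    (h' : IsMeet P' Q' D') (hP : Ent P P') (hQ : Ent Q Q') : Ent D D' :=
  (h' D).2 ⟨((h D).1 (Ent.refl D)).1.trans hP, ((h D).1 (Ent.refl D)).2.trans hQ⟩

theorem IsJoin.mono {I : Type} {P Q D P' Q' D' : I → Sig} (h : IsJoin P Q D)
    (h' : IsJoin P' Q' D') (hP : Ent P P') (hQ : Ent Q Q') : Ent D D' :=
  (h D').2 ⟨hP.trans ((h' D').1 (Ent.refl D')).1, hQ.trans ((h' D').1 (Ent.refl D')).2⟩

theorem IsMeet.congr_right {I : Type} {P Q Q' D : I → Sig} (h : IsMeet P Q D) (hQ : Equ Q Q') :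
    IsMeet P Q' D := by
  intro θ
  rw [h θ]
  constructor
  · rintro ⟨h1, h2⟩; exact ⟨h1, h2.trans hQ.1⟩
  · rintro ⟨h1, h2⟩; exact ⟨h1, h2.trans hQ.2⟩

theorem IsImp.mono {I : Type} {P Q D P' Q' D' : I → Sig} (h : IsImp P Q D)
    (h' : IsImp P' Q' D') (hP : Equ P P') (hQ : Ent Q Q') : Ent D D' := by
  have hm : IsMeet D P' (meet D P') := isMeet_meet D P'
  rw [h' D _ hm]
  have h1 := (h D _ (hm.congr_right hP.symm)).1 (Ent.refl D)
  exact h1.trans hQ

theorem IsAll.mono {I J : Type} {f : I → J} {P P' : I → Sig} {D D' : J → Sig} (h : IsAll f P D)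
    (h' : IsAll f P' D') (hP : Ent P P') : Ent D D' :=
  (h' D).2 (((h D).1 (Ent.refl D)).trans hP)

theorem IsEx.mono {I J : Type} {f : I → J} {P P' : I → Sig} {D D' : J → Sig} (h : IsEx f P D)
    (h' : IsEx f P' D') (hP : Ent P P') : Ent D D' :=
  (h D').2 (hP.trans ((h' D').1 (Ent.refl D')))

end Pool.Agent.R625.Dst
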