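import Mathlib
import Pool.Agent.R625.DstLogic

/-!
# First-order formulas and their interpretation in the indexed preorder
-/

namespace Pool.Agent.R625.Dst

open FirstOrder.Language

variable {L : FirstOrder.Language.{0, 0}}

theorem tl_cons {M : Type} {n : ℕ} (x : M) (v : Fin n → M) :
    tl (Fin.cons x v : Fin (n + 1) → M) = v := by
  funext i
  simp [tl]

theorem cons_tl {M : Type} {n : ℕ} (w : Fin (n + 1) → M) :
    (Fin.cons (w 0) (tl w) : Fin (n + 1) → M) = w := by
  funext i
  refine Fin.cases ?_ (fun j => ?_) i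
  · simp
  · simp [tl]

theorem interp_mono {κ κ' : (I : Type) → Set I → I → Sig}
    (hκ : ∀ (I : Type) (A : Set I), Equ (κ I A) (κ' I A)) (M : Type) [L.Structure M] :
    ∀ {n : ℕ} (φ : Fml L n) {D D' : (Fin n → M) → Sig},
      Interp κ M φ D → Interp κ' M φ D' → Equ D D' := by
  intro n φ
  induction φ with
  | eq s t =>
    intro D D' h h'
    simp only [Interp] at h h'
    subst h; subst h'
    exact (hκ (M × M) {p | p.1 = p.2}).comp (fun v => (s.realize v, t.realize v))
  | rel R ts =>
    intro D D' h h'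
    simp only [Interp] at h h'
    subst h; subst h'
    exact (hκ _ {w | Structure.RelMap R w}).comp (fun v i => (ts i).realize v)
  | bot =>
    intro D D' h h'
    exact ⟨h D', h' D⟩
  | and φ ψ ih1 ih2 =>
    rintro D D' ⟨P, Q, hP, hQ, h⟩ ⟨P', Q', hP', hQ', h'⟩
    have e1 := ih1 hP hP'
    have e2 := ih2 hQ hQ'
    exact ⟨h.mono h' e1.1 e2.1, h'.mono h e1.2 e2.2⟩
  | or φ ψ ih1 ih2 =>
    rintro D D' ⟨P, Q, hP, hQ, h⟩ ⟨P', Q', hP', hQ', h'⟩
    have e1 := ih1 hP hP'
    have e2 := ih2 hQ hQ'
    exact ⟨h.mono h' e1.1 e2.1, h'.mono h e1.2 e2.2⟩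
  | imp φ ψ ih1 ih2 =>
    rintro D D' ⟨P, Q, hP, hQ, h⟩ ⟨P', Q', hP', hQ', h'⟩
    have e1 := ih1 hP hP'
    have e2 := ih2 hQ hQ'
    exact ⟨h.mono h' e1 e2.1, h'.mono h e1.symm e2.2⟩
  | all φ ih =>
    rintro D D' ⟨P, hP, h⟩ ⟨P', hP', h'⟩
    have e := ih hP hP'
    exact ⟨h.mono h' e.1, h'.mono h e.2⟩
  | ex φ ih =>
    rintro D D' ⟨P, hP, h⟩ ⟨P', hP', h'⟩
    have e := ih hP hP'
    exact ⟨h.mono h' e.1, h'.mono h e.2⟩

/-! ### The internal predicates -/

theorem int_mono {I : Type} {A B : Set I} (h : A ⊆ B) : Ent (int I A) (int I B) := by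
  refine Ent.intro' (fun _ => 0) (fun _ => code [0]) (Computable.const _) (Computable.const _)
    ?_ ?_ ?_
  · intro i a _; exact zero_mem_star _
  · intro i a _ b _
    rw [mem_star_code]
    simp [int]
  · intro i a _ b hb hall
    rw [els_code] at hall
    have := hall 0 (List.mem_singleton.2 rfl)
    exact ⟨zero_mem_star _, hb, h this.2.2⟩

theorem int_bot {I : Type} {A : Set I} (hA : ∀ i, i ∉ A) : IsBot (int I A) := by
  intro θ
  refine Ent.intro' (fun _ => 0) (fun _ => code [0]) (Computable.const _) (Computable.const _)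
    ?_ ?_ ?_
  · intro i a _; exact zero_mem_star _
  · intro i a _ b _
    rw [mem_star_code]
    simp [int]
  · intro i a _ b hb hall
    rw [els_code] at hall
    have := hall 0 (List.mem_singleton.2 rfl)
    exact absurd this.2.2 (hA i)

theorem int_meet {I : Type} (A B : Set I) : IsMeet (int I A) (int I B) (int I (A ∩ B)) := by
  intro θ
  constructor
  · intro h
    exact ⟨h.trans (int_mono Set.inter_subset_left), h.trans (int_mono Set.inter_subset_right)⟩
  · rintro ⟨h, h'⟩
    obtain ⟨f, g, hf, hg, h1, h2⟩ := h.elim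
    obtain ⟨f', g', hf', hg', h1', h2'⟩ := h'.elim
    have hG : Partrec (fun n : ℕ => (g n).bind fun s => (g' n).map fun s' => uni s s') := by
      refine hg.bind (Partrec.map (hg'.comp Computable.fst) ?_)
      exact computable_uni.comp (Computable.snd.comp Computable.fst) Computable.snd
    refine Ent.intro (fun _ => Part.some 0) _ (Computable.const 0) hG ?_ ?_
    · intro i a _
      exact ⟨0, Part.mem_some _, zero_mem_star _⟩
    · intro i a ha b hb
      obtain ⟨s, hs, hs1, hs2⟩ := h2 i a ha b hb
      obtain ⟨s', hs', hs1', hs2'⟩ := h2' i a ha b hb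
      obtain ⟨r, hr, -⟩ := h1 i a ha
      obtain ⟨r', hr', -⟩ := h1' i a ha
      refine ⟨uni s s', Part.mem_bind hs (Part.mem_map _ hs'), ?_, ?_⟩
      · intro x hx
        rcases mem_uni.1 hx with hx | hx
        · exact hs1 x hx
        · exact hs1' x hx
      · intro hall t ht
        rw [Part.mem_some_iff] at ht
        subst ht
        refine ⟨zero_mem_star _, hb, ?_, ?_⟩
        · exact (hs2 (fun c hc => hall c (mem_uni.2 (Or.inl hc))) r hr).2.2
        · exact (hs2' (fun c hc => hall c (mem_uni.2 (Or.inr hc))) r' hr').2.2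

theorem int_join {I : Type} (A B : Set I) : IsJoin (int I A) (int I B) (int I (A ∪ B)) := by
  intro θ
  constructor
  · intro h
    exact ⟨(int_mono Set.subset_union_left).trans h, (int_mono Set.subset_union_right).trans h⟩
  · rintro ⟨h, h'⟩
    obtain ⟨f, g, hf, hg, h1, h2⟩ := h.elim
    obtain ⟨f', g', hf', hg', h1', h2'⟩ := h'.elim
    have hF : Partrec (fun n : ℕ => (f n).bind fun s => (f' n).map fun s' => uni s s') := by
      refine hf.bind (Partrec.map (hf'.comp Computable.fst) ?_)
      exact computable_uni.comp (Computable.snd.comp Computable.fst) Computable.snd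
    have hG : Partrec (fun n : ℕ => (g n).bind fun s => (g' n).map fun s' => uni s s') := by
      refine hg.bind (Partrec.map (hg'.comp Computable.fst) ?_)
      exact computable_uni.comp (Computable.snd.comp Computable.fst) Computable.snd
    refine Ent.intro _ _ hF hG ?_ ?_
    · intro i a ha
      obtain ⟨r, hr, hr1⟩ := h1 i a ha
      obtain ⟨r', hr', hr1'⟩ := h1' i a ha
      refine ⟨uni r r', Part.mem_bind hr (Part.mem_map _ hr'), ?_⟩
      intro x hx
      rcases mem_uni.1 hx with hx | hx
      · exact hr1 x hx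
      · exact hr1' x hx
    · intro i a ha b hb
      obtain ⟨s, hs, hs1, hs2⟩ := h2 i a ha b hb
      obtain ⟨s', hs', hs1', hs2'⟩ := h2' i a ha b hb
      obtain ⟨r, hr, hr1⟩ := h1 i a ha
      obtain ⟨r', hr', hr1'⟩ := h1' i a ha
      refine ⟨uni s s', Part.mem_bind hs (Part.mem_map _ hs'), ?_, ?_⟩
      · intro x hx
        rcases mem_uni.1 hx with hx | hx
        · exact hs1 x hx
        · exact hs1' x hx
      · intro hall t ht
        have ht' := Part.mem_unique ht (Part.mem_bind hr (Part.mem_map _ hr'))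
        have hmem : uni r r' ∈ FinSub (θ i).pos := by
          intro x hx
          rcases mem_uni.1 hx with hx | hx
          · exact hr1 x hx
          · exact hr1' x hx
        rw [ht']
        by_cases hiA : i ∈ A
        · refine (θ i).up _ _ _ (hs2 (fun c hc => ⟨ha, hs1 c hc, hiA⟩) r hr) hmem ?_
          intro x hx
          exact mem_uni.2 (Or.inl hx)
        · by_cases hiB : i ∈ B
          · refine (θ i).up _ _ _ (hs2' (fun c hc => ⟨ha, hs1' c hc, hiB⟩) r' hr') hmem ?_
            intro x hx
            exact mem_uni.2 (Or.inr hx)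
          · refine (θ i).up _ _ _ (hs2 (fun c hc => ?_) r hr) hmem ?_
            · have := hall c (mem_uni.2 (Or.inl hc))
              rcases this.2.2 with h | h
              · exact absurd h hiA
              · exact absurd h hiB
            · intro x hx
              exact mem_uni.2 (Or.inl hx)

theorem int_imp {I : Type} (A B : Set I) :
    IsImp (int I A) (int I B) (int I {i | i ∈ A → i ∈ B}) := by
  intro θ m hm
  constructor
  · intro h
    have hm' := (hm m).1 (Ent.refl m)
    have h3 : Ent m (int I ({i | i ∈ A → i ∈ B} ∩ A)) :=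
      (int_meet _ _ m).2 ⟨hm'.1.trans h, hm'.2⟩
    exact h3.trans (int_mono (fun i hi => hi.1 hi.2))
  · intro h
    have h4 : Ent (meet θ (int I A)) (int I B) :=
      Ent.trans ((hm _).2 ⟨meet_left _ _, meet_right _ _⟩) h
    obtain ⟨f, g, hf, hg, h1, h2⟩ := h4.elim
    have hG : Partrec (fun n : ℕ => (g (Nat.pair (tag 0 n.unpair.1) n.unpair.2)).map (prj 0)) := by
      refine Partrec.map (hg.comp ?_) ((computable_prj 0).comp Computable.snd)
      exact (Primrec₂.natPair.to_comp).comp ((computable_tag 0).comp computable_fst) computable_snd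
    refine Ent.intro (fun _ => Part.some 0) _ (Computable.const 0) hG ?_ ?_
    · intro i a _
      exact ⟨0, Part.mem_some _, zero_mem_star _⟩
    · intro i a ha b hb
      have hst : tag 0 a ∈ FinSub (meet θ (int I A) i).pos := by
        intro x hx
        obtain ⟨c, hc, rfl⟩ := mem_tag.1 hx
        exact pair0_mem.2 (ha c hc)
      obtain ⟨s, hs, hs1, hs2⟩ := h2 i _ hst b hb
      obtain ⟨r, hr, -⟩ := h1 i _ hst
      refine ⟨prj 0 s, ?_, prj_mem_star0 hs1, ?_⟩
      · simp only [Nat.unpair_pair]
        exact Part.mem_map _ hs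
      · intro hall t ht
        rw [Part.mem_some_iff] at ht
        subst ht
        refine ⟨zero_mem_star _, hb, ?_⟩
        intro hiA
        refine (hs2 (fun c hc => ?_) r hr).2.2
        rcases hs1 c hc with ⟨d, hd, rfl⟩ | ⟨d, hd, rfl⟩
        · refine meetS_rel0.2 ⟨hst, (θ i).up _ _ _ (hall d (mem_prj.2 hc)) (prj_mem_star0 hst) ?_⟩
          intro x hx
          rw [mem_prj, mem_tag]
          exact ⟨x, hx, rfl⟩
        · exact meetS_rel1.2 ⟨hst, prj_mem_star1 hst, hd, hiA⟩

theorem int_all {I J : Type} (f : I → J) (hf : Function.Surjective f ∨ IsEmpty I) (A : Set I) :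
    IsAll f (int I A) (int J {j | ∀ i, f i = j → i ∈ A}) := by
  intro θ
  constructor
  · intro h
    have h2 : Ent (θ ∘ f) (int I {i | ∀ i', f i' = f i → i' ∈ A}) := h.comp f
    exact h2.trans (int_mono (fun i hi => hi i rfl))
  · intro h
    rcases hf with hf | hf
    · obtain ⟨F, G, hF, hG, h1, h2⟩ := h.elim
      refine Ent.intro (fun _ => Part.some 0) G (Computable.const 0) hG ?_ ?_
      · intro j a _
        exact ⟨0, Part.mem_some _, zero_mem_star _⟩
      · intro j a ha b hb
        obtain ⟨i, rfl⟩ := hf j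
        obtain ⟨s, hs, hs1, hs2⟩ := h2 i a ha b hb
        refine ⟨s, hs, hs1, ?_⟩
        intro hall t ht
        rw [Part.mem_some_iff] at ht
        subst ht
        refine ⟨zero_mem_star _, hb, ?_⟩
        intro i' hi'
        have ha' : a ∈ FinSub ((θ ∘ f) i').pos := by
          simp only [Function.comp, hi']; exact ha
        obtain ⟨s', hs', hs1', hs2'⟩ := h2 i' a ha' b hb
        obtain ⟨r, hr, -⟩ := h1 i' a ha'
        have := Part.mem_unique hs' hs
        subst this
        refine (hs2' (fun c hc => ?_) r hr).2.2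
        simp only [Function.comp, hi']
        exact hall c hc
    · refine Ent.intro' (fun _ => 0) (fun _ => 0) (Computable.const _) (Computable.const _)
        ?_ ?_ ?_
      · intro j a _; exact zero_mem_star _
      · intro j a _ b _; exact zero_mem_star _
      · intro j a _ b hb _
        exact ⟨zero_mem_star _, hb, fun i => (hf.false i).elim⟩

theorem int_ex {I J : Type} (f : I → J) (hf : Function.Surjective f ∨ IsEmpty I) (A : Set I) :
    IsEx f (int I A) (int J {j | ∃ i, f i = j ∧ i ∈ A}) := by
  intro θ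
  constructor
  · intro h
    have h2 : Ent (int I {i | ∃ i', f i' = f i ∧ i' ∈ A}) (θ ∘ f) := h.comp f
    exact Ent.trans (int_mono (B := {i | ∃ i', f i' = f i ∧ i' ∈ A}) (fun i hi => ⟨i, rfl, hi⟩)) h2
  · intro h
    rcases hf with hf | hf
    · obtain ⟨F, G, hF, hG, h1, h2⟩ := h.elim
      refine Ent.intro F G hF hG ?_ ?_
      · intro j a ha
        obtain ⟨i, rfl⟩ := hf j
        exact h1 i a ha
      · intro j a ha b hb
        obtain ⟨i, rfl⟩ := hf j
        obtain ⟨s, hs, hs1, hs2⟩ := h2 i a ha b hb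
        refine ⟨s, hs, hs1, ?_⟩
        intro hall t ht
        by_cases hj : ∃ i', f i' = f i ∧ i' ∈ A
        · obtain ⟨i', hi', hi'A⟩ := hj
          have hb' : b ∈ ((θ ∘ f) i').neg := by
            simp only [Function.comp, hi']; exact hb
          obtain ⟨s', hs', hs1', hs2'⟩ := h2 i' a ha b hb'
          have := Part.mem_unique hs' hs
          subst this
          have h5 := hs2' (fun c hc => ⟨ha, hs1' c hc, hi'A⟩) t ht
          simp only [Function.comp, hi'] at h5
          exact h5
        · refine hs2 (fun c hc => ?_) t ht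
          exact absurd (hall c hc).2.2 hj
    · exact int_bot (fun j hj => by obtain ⟨i, -⟩ := hj; exact hf.false i) θ

theorem tail_surj (M : Type) (n : ℕ) :
    Function.Surjective (tl : (Fin (n + 1) → M) → (Fin n → M)) ∨
      IsEmpty (Fin (n + 1) → M) := by
  by_cases hM : Nonempty M
  · left
    intro v
    obtain ⟨x⟩ := hM
    exact ⟨Fin.cons x v, tl_cons x v⟩
  · right
    exact ⟨fun v => hM ⟨v 0⟩⟩

theorem interp_int (M : Type) [L.Structure M] :
    ∀ {n : ℕ} (φ : Fml L n), Interp int M φ (int (Fin n → M) {v | Sat M φ v}) := by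
  intro n φ
  induction φ with
  | eq s t => rfl
  | rel R ts => rfl
  | bot => exact int_bot (fun v hv => hv)
  | and φ ψ ih1 ih2 => exact ⟨_, _, ih1, ih2, int_meet _ _⟩
  | or φ ψ ih1 ih2 => exact ⟨_, _, ih1, ih2, int_join _ _⟩
  | imp φ ψ ih1 ih2 => exact ⟨_, _, ih1, ih2, int_imp _ _⟩
  | @all n φ ih =>
    refine ⟨_, ih, ?_⟩
    have h := int_all (tl : (Fin (n + 1) → M) → (Fin n → M)) (tail_surj M n)
      {v | Sat M φ v}
    have he : {j : Fin n → M | ∀ i : Fin (n + 1) → M, tl i = j → i ∈ {v | Sat M φ v}} =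
        {v | Sat M (Fml.all φ) v} := by
      ext v
      constructor
      · intro h x
        exact h (Fin.cons x v) (tl_cons x v)
      · rintro h w rfl
        have := h (w 0)
        rwa [cons_tl] at this
    rw [he] at h
    exact h
  | @ex n φ ih =>
    refine ⟨_, ih, ?_⟩
    have h := int_ex (tl : (Fin (n + 1) → M) → (Fin n → M)) (tail_surj M n)
      {v | Sat M φ v}
    have he : {j : Fin n → M | ∃ i : Fin (n + 1) → M, tl i = j ∧ i ∈ {v | Sat M φ v}} =
        {v | Sat M (Fml.ex φ) v} := by
      ext v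
      constructor
      · rintro ⟨w, rfl, hw⟩
        refine ⟨w 0, ?_⟩
        rw [cons_tl]
        exact hw
      · rintro ⟨x, hx⟩
        exact ⟨Fin.cons x v, tl_cons x v, hx⟩
    rw [he] at h
    exact h

theorem holds_congr {I : Type} {D D' : I → Sig} (h : Ent D D') {v : I} (hv : Holds D v) :
    Holds D' v := by
  have h1 : Ent (fun _ : Unit => D v) (fun _ : Unit => D' v) := h.comp (fun _ : Unit => v)
  exact Ent.trans hv h1

theorem holds_int {I : Type} {A : Set I} {v : I} : Holds (int I A) v ↔ v ∈ A := by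
  constructor
  · intro h
    obtain ⟨f, g, hf, hg, h1, h2⟩ := Ent.elim h
    obtain ⟨s, hs, hs1, hs2⟩ := h2 () 0 (zero_mem_star _) 0 rfl
    obtain ⟨r, hr, -⟩ := h1 () 0 (zero_mem_star _)
    exact (hs2 (fun c hc => absurd (hs1 c hc) (Set.notMem_empty c)) r hr).2.2
  · intro hv
    refine Ent.intro' (fun _ => 0) (fun _ => 0) (Computable.const _) (Computable.const _) ?_ ?_ ?_
    · intro i a _; exact zero_mem_star _
    · intro i a _ b _; exact zero_mem_star _
    · intro i a _ b hb _
      exact ⟨zero_mem_star _, hb, hv⟩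

theorem int_sound_complete (M : Type) [L.Structure M] {n : ℕ} (φ : Fml L n)
    (D : (Fin n → M) → Sig) (hD : Interp int M φ D) (v : Fin n → M) :
    Holds D v ↔ Sat M φ v := by
  have he : Equ D (int (Fin n → M) {v | Sat M φ v}) :=
    interp_mono (fun I A => Equ.refl _) M φ hD (interp_int M φ)
  constructor
  · intro h
    have := holds_congr he.1 h
    exact holds_int.1 this
  · intro h
    exact holds_congr he.2 (holds_int.2 h)

end Pool.Agent.R625.Dst
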