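import Mathlib
import Pool.Agent.R625.DstInterp

/-!
# The constant-objects predicates `∃_{A ↪ I} ⊤` and decidability of equality
-/

namespace Pool.Agent.R625.Dst

open FirstOrder.Language

/-- `img I A` is the image `∃_f ⊤` of truth along any map `f` with range `A`; in particular along
the inclusion of `A`, and along the diagonal when `A` is the diagonal. -/
theorem isEx_img {I J : Type} (f : J → I) (A : Set I) (hA : ∀ i, i ∈ A ↔ ∃ j, f j = i) :
    IsEx f (fun _ => topS) (img I A) := by
  intro θ
  constructor
  · intro h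
    obtain ⟨F, G, hF, hG, h1, h2⟩ := h.elim
    have hF' : Partrec (fun _ : ℕ => F (code [0])) := hF.comp (Computable.const _)
    have hst : ∀ j, code [0] ∈ FinSub (img I A (f j)).pos := by
      intro j
      rw [mem_star_code]
      intro x hx
      exact ⟨List.mem_singleton.1 hx, (hA _).2 ⟨j, rfl⟩⟩
    refine Ent.intro _ (fun _ => Part.some 0) hF' (Computable.const 0) ?_ ?_
    · intro j a _
      exact h1 (f j) (code [0]) (hst j)
    · intro j a _ b hb
      obtain ⟨s, hs, hs1, hs2⟩ := h2 (f j) _ (hst j) b hb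
      refine ⟨0, Part.mem_some _, zero_mem_star _, ?_⟩
      intro _ r hr
      refine hs2 (fun c hc => ?_) r hr
      exact ⟨hst j, hs1 c hc, by simp⟩
  · intro h
    obtain ⟨F, G, hF, hG, h1, h2⟩ := h.elim
    by_cases hne : Nonempty J
    · obtain ⟨j0⟩ := hne
      obtain ⟨t, ht, -⟩ := h1 j0 0 (zero_mem_star _)
      have hF' : Computable (fun n : ℕ => if els n = [] then 0 else t) := by
        have : Primrec (fun n : ℕ => if els n = [] then 0 else t) := by
          refine Primrec.ite ?_ (Primrec.const _) (Primrec.const _)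
          exact Primrec.eq.comp (Primrec.ofNat (List ℕ)) (Primrec.const [])
        exact this.to_comp
      refine Ent.intro' _ (fun _ => code [0]) hF' (Computable.const _) ?_ ?_ ?_
      · intro i a ha
        by_cases he : els a = []
        · simp only [he, if_true]; exact zero_mem_star _
        · simp only [he, if_false]
          obtain ⟨x, hx⟩ := List.exists_mem_of_ne_nil _ he
          have hi : i ∈ A := (ha x hx).2
          obtain ⟨j, rfl⟩ := (hA i).1 hi
          obtain ⟨r, hr, hr'⟩ := h1 j 0 (zero_mem_star _)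
          have := Part.mem_unique hr ht
          subst this
          exact hr'
      · intro i a _ b _
        rw [mem_star_code]
        simp [img]
      · intro i a ha b hb hall
        rw [els_code] at hall
        have h0 := hall 0 (List.mem_singleton.2 rfl)
        have h0' : 0 ∈ els a := h0.2.2
        have hi : i ∈ A := (ha 0 h0').2
        have he : els a ≠ [] := List.ne_nil_of_mem h0'
        simp only [he, if_false]
        obtain ⟨j, rfl⟩ := (hA i).1 hi
        obtain ⟨s, hs, hs1, hs2⟩ := h2 j 0 (zero_mem_star _) b hb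
        exact hs2 (fun c hc => absurd (hs1 c hc) (Set.notMem_empty c)) t ht
    · refine Ent.intro' (fun _ => 0) (fun _ => code [0]) (Computable.const _)
        (Computable.const _) ?_ ?_ ?_
      · intro i a _; exact zero_mem_star _
      · intro i a _ b _
        rw [mem_star_code]
        simp [img]
      · intro i a ha b hb hall
        rw [els_code] at hall
        have h0 := hall 0 (List.mem_singleton.2 rfl)
        obtain ⟨j, -⟩ := (hA i).1 (ha 0 h0.2.2).2
        exact absurd ⟨j⟩ hne

/-- The explicit join of `img I A` and its negation. -/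
def jj (I : Type) (A : Set I) (i : I) : Sig where
  pos := {x | x = 0 ∧ i ∈ A}
  neg := {y | y = 0 ∧ i ∈ A}
  rel := fun a y => a ∈ FinSub {x | x = 0 ∧ i ∈ A} ∧ (y = 0 ∧ i ∈ A) ∧ 0 ∈ els a
  dom := fun _ _ h => ⟨h.1, h.2.1⟩
  up := fun _ _ _ h hb hs => ⟨hb, h.2.1, hs _ h.2.2⟩

theorem img_le_jj {I : Type} (A : Set I) : Ent (img I A) (jj I A) := by
  refine Ent.intro' (fun a => a) (fun _ => code [0]) Computable.id (Computable.const _) ?_ ?_ ?_
  · intro i a ha; exact ha
  · intro i a _ b _
    rw [mem_star_code]
    simp [img]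
  · intro i a ha b hb hall
    rw [els_code] at hall
    have h0 := hall 0 (List.mem_singleton.2 rfl)
    exact ⟨ha, hb, h0.2.2⟩

theorem lit_of_mem {I : Type} {A : Set I} {i : I} (h : i ∈ A) : lit I A i = topS := by
  simp [lit, h]

theorem lit_of_not_mem {I : Type} {A : Set I} {i : I} (h : i ∉ A) : lit I A i = botS := by
  simp [lit, h]

theorem lit_le_jj {I : Type} (A : Set I) : Ent (lit I Aᶜ) (jj I A) := by
  refine Ent.intro' (fun _ => 0) (fun _ => code [0]) (Computable.const _) (Computable.const _)
    ?_ ?_ ?_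
  · intro i a _; exact zero_mem_star _
  · intro i a _ b hb
    have hi : i ∈ A := hb.2
    rw [mem_star_code, lit_of_not_mem (by simpa using hi)]
    simp [botS]
  · intro i a ha b hb hall
    have hi : i ∈ A := hb.2
    rw [els_code] at hall
    have h0 := hall 0 (List.mem_singleton.2 rfl)
    rw [lit_of_not_mem (by simpa using hi)] at h0
    exact h0.elim

theorem meet_lit_img {I : Type} (A : Set I) (χ : I → Sig) :
    Ent (meet (lit I Aᶜ) (img I A)) χ := by
  have hG : Computable (fun n : ℕ => if els n.unpair.1 = [] then code [Nat.pair 1 0]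
      else code [Nat.pair 0 0]) := by
    have : Primrec (fun n : ℕ => if els n.unpair.1 = [] then code [Nat.pair 1 0]
      else code [Nat.pair 0 0]) := by
      refine Primrec.ite ?_ (Primrec.const _) (Primrec.const _)
      exact Primrec.eq.comp ((Primrec.ofNat (List ℕ)).comp
        (Primrec.fst.comp Primrec.unpair)) (Primrec.const [])
    exact this.to_comp
  refine Ent.intro' (fun _ => 0) _ (Computable.const _) hG ?_ ?_ ?_
  · intro i a _; exact zero_mem_star _
  · intro i a ha b _
    simp only [Nat.unpair_pair]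
    by_cases he : els a = []
    · simp only [he, if_true]
      rw [mem_star_code]
      intro x hx
      rw [List.mem_singleton] at hx
      subst hx
      exact pair1_mem.2 rfl
    · simp only [he, if_false]
      rw [mem_star_code]
      intro x hx
      rw [List.mem_singleton] at hx
      subst hx
      refine pair0_mem.2 ?_
      obtain ⟨x, hx⟩ := List.exists_mem_of_ne_nil _ he
      have hi : i ∈ A := by
        rcases ha x hx with ⟨c, hc, -⟩ | ⟨c, hc, -⟩
        · exfalso
          by_cases h : i ∈ Aᶜ
          · rw [lit_of_mem h] at hc; exact hc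
          · rw [lit_of_not_mem h] at hc; exact hc
        · exact hc.2
      rw [lit_of_not_mem (by simpa using hi)]
      exact rfl
  · intro i a ha b _ hall
    exfalso
    simp only [Nat.unpair_pair] at hall
    by_cases he : els a = []
    · simp only [he, if_true, els_code] at hall
      have h0 := (meetS_rel1.1 (hall _ (List.mem_singleton.2 rfl))).2
      have h1 : 0 ∈ els (prj 1 a) := h0.2.2
      rw [mem_prj, he] at h1
      exact List.not_mem_nil h1
    · simp only [he, if_false, els_code] at hall
      have h0 := (meetS_rel0.1 (hall _ (List.mem_singleton.2 rfl))).2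
      by_cases h : i ∈ Aᶜ
      · rw [lit_of_mem h] at h0; exact h0
      · rw [lit_of_not_mem h] at h0; exact h0

theorem isImp_lit {I : Type} (A : Set I) {Db : I → Sig} (hb : IsBot Db) :
    IsImp (img I A) Db (lit I Aᶜ) := by
  intro θ m hm
  constructor
  · intro h
    have h1 := (hm m).1 (Ent.refl m)
    exact (meet_intro (h1.1.trans h) h1.2).trans (meet_lit_img A Db)
  · intro h
    have h4 : Ent (meet θ (img I A)) (int I ∅) :=
      Ent.trans ((hm _).2 ⟨meet_left _ _, meet_right _ _⟩) (h.trans (hb _))
    obtain ⟨f, g, hf, hg, h1, h2⟩ := h4.elim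
    have hG : Partrec (fun n : ℕ =>
        (g (Nat.pair (uni (tag 0 n.unpair.1) (tag 1 (code [0]))) 0)).map (prj 0)) := by
      refine Partrec.map (hg.comp ?_) ((computable_prj 0).comp Computable.snd)
      exact (Primrec₂.natPair.to_comp).comp (computable_uni.comp
        ((computable_tag 0).comp computable_fst) (Computable.const _)) (Computable.const _)
    refine Ent.intro (fun _ => Part.some 0) _ (Computable.const 0) hG ?_ ?_
    · intro i a _
      exact ⟨0, Part.mem_some _, zero_mem_star _⟩
    · intro i a ha b hb'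
      have hi : i ∈ A := by
        by_contra hi
        rw [lit_of_mem (show i ∈ Aᶜ from hi)] at hb'
        exact hb'
      have hst : uni (tag 0 a) (tag 1 (code [0])) ∈ FinSub (meet θ (img I A) i).pos := by
        intro x hx
        rcases mem_uni.1 hx with hx | hx
        · obtain ⟨c, hc, rfl⟩ := mem_tag.1 hx
          exact pair0_mem.2 (ha c hc)
        · obtain ⟨c, hc, rfl⟩ := mem_tag.1 hx
          rw [els_code, List.mem_singleton] at hc
          exact pair1_mem.2 ⟨hc, hi⟩
      obtain ⟨s, hs, hs1, hs2⟩ := h2 i _ hst 0 rfl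
      obtain ⟨r, hr, -⟩ := h1 i _ hst
      refine ⟨prj 0 s, ?_, prj_mem_star0 hs1, ?_⟩
      · simp only [Nat.unpair_pair]
        exact Part.mem_map _ hs
      · intro hall t ht
        exfalso
        refine (hs2 (fun c hc => ?_) r hr).2.2
        rcases hs1 c hc with ⟨d, hd, rfl⟩ | ⟨d, hd, rfl⟩
        · refine meetS_rel0.2 ⟨hst, (θ i).up _ _ _ (hall d (mem_prj.2 hc)) (prj_mem_star0 hst) ?_⟩
          intro x hx
          rw [mem_prj, mem_uni, mem_tag]
          exact Or.inl ⟨x, hx, rfl⟩
        · refine meetS_rel1.2 ⟨hst, prj_mem_star1 hst, hd, ?_⟩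
          rw [mem_prj, mem_uni, mem_tag, mem_tag]
          exact Or.inr ⟨0, by simp, rfl⟩

theorem isJoin_jj {I : Type} (A : Set I) : IsJoin (img I A) (lit I Aᶜ) (jj I A) := by
  intro θ
  constructor
  · intro h
    exact ⟨(img_le_jj A).trans h, (lit_le_jj A).trans h⟩
  · rintro ⟨h, h'⟩
    obtain ⟨f, g, hf, hg, h1, h2⟩ := h.elim
    obtain ⟨f', g', hf', hg', h1', h2'⟩ := h'.elim
    have hF : Partrec (fun n : ℕ => (f n).bind fun s => (f' 0).map fun s' => uni s s') := by
      refine hf.bind (Partrec.map (hf'.comp (Computable.const 0)) ?_)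
      exact computable_uni.comp (Computable.snd.comp Computable.fst) Computable.snd
    have hG : Partrec (fun n : ℕ => g' (Nat.pair 0 n.unpair.2)) :=
      hg'.comp ((Primrec₂.natPair.to_comp).comp (Computable.const _) computable_snd)
    refine Ent.intro _ _ hF hG ?_ ?_
    · intro i a ha
      obtain ⟨r, hr, hr1⟩ := h1 i a ha
      obtain ⟨r', hr', hr1'⟩ := h1' i 0 (zero_mem_star _)
      refine ⟨uni r r', Part.mem_bind hr (Part.mem_map _ hr'), ?_⟩
      intro x hx
      rcases mem_uni.1 hx with hx | hx
      · exact hr1 x hx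
      · exact hr1' x hx
    · intro i a ha b hb
      obtain ⟨r, hr, hr1⟩ := h1 i a ha
      obtain ⟨r', hr', hr1'⟩ := h1' i 0 (zero_mem_star _)
      obtain ⟨s, hs, hs1, hs2⟩ := h2 i a ha b hb
      obtain ⟨s', hs', hs1', hs2'⟩ := h2' i 0 (zero_mem_star _) b hb
      refine ⟨s', by simpa using hs', ?_, ?_⟩
      · intro x hx
        have := hs1' x hx
        by_cases hi : i ∈ A
        · rw [lit_of_not_mem (by simpa using hi)] at this
          exact ⟨this, hi⟩
        · rw [lit_of_mem (show i ∈ Aᶜ from hi)] at this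
          exact this.elim
      · intro hall t ht
        have ht' := Part.mem_unique ht (Part.mem_bind hr (Part.mem_map _ hr'))
        have hmem : uni r r' ∈ FinSub (θ i).pos := by
          intro x hx
          rcases mem_uni.1 hx with hx | hx
          · exact hr1 x hx
          · exact hr1' x hx
        rw [ht']
        by_cases he : els s' = []
        · refine (θ i).up _ _ _ (hs2' (fun c hc => ?_) r' hr') hmem ?_
          · rw [he] at hc
            exact absurd hc List.not_mem_nil
          · intro x hx
            exact mem_uni.2 (Or.inr hx)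
        · obtain ⟨x, hx⟩ := List.exists_mem_of_ne_nil _ he
          have h0 := hall x hx
          refine (θ i).up _ _ _ (hs2 (fun c hc => ?_) r hr) hmem ?_
          · exact ⟨ha, hs1 c hc, h0.2.2⟩
          · intro x hx
            exact mem_uni.2 (Or.inl hx)

/-- The explicit universal quantification along a surjection. -/
def allP {I J : Type} (f : I → J) (φ : I → Sig) (j : J) : Sig where
  pos := {x | ∀ i, f i = j → x ∈ (φ i).pos}
  neg := {y | ∃ i, f i = j ∧ y ∈ (φ i).neg}
  rel := fun a y => a ∈ FinSub {x | ∀ i, f i = j → x ∈ (φ i).pos} ∧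
    (∃ i, f i = j ∧ y ∈ (φ i).neg) ∧ ∀ i, f i = j → y ∈ (φ i).neg → (φ i).rel a y
  dom := fun _ _ h => ⟨h.1, h.2.1⟩
  up := fun a b y h hb hs => ⟨hb, h.2.1, fun i hi hy =>
    (φ i).up a b y (h.2.2 i hi hy) (fun x hx => hb x hx i hi) hs⟩

theorem isAll_allP {I J : Type} {f : I → J} (hf : Function.Surjective f) (φ : I → Sig) :
    IsAll f φ (allP f φ) := by
  intro θ
  constructor
  · intro h
    refine (h.comp f).trans ?_
    refine Ent.intro' (fun a => a) (fun n => code [n.unpair.2]) Computable.id ?_ ?_ ?_ ?_
    · exact computable_code.comp (Computable.list_cons.comp computable_snd (Computable.const []))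
    · intro i a ha x hx
      exact ha x hx i rfl
    · intro i a ha b hb
      rw [mem_star_code]
      simp only [Nat.unpair_pair, List.mem_singleton]
      rintro x rfl
      exact ⟨i, rfl, hb⟩
    · intro i a ha b hb hall
      simp only [Nat.unpair_pair, els_code, List.mem_singleton] at hall
      exact (hall b rfl).2.2 i rfl hb
  · intro h
    obtain ⟨F, G, hF, hG, h1, h2⟩ := h.elim
    have hpos : ∀ j, ∀ a ∈ FinSub (θ j).pos, ∃ r ∈ F a, r ∈ FinSub (allP f φ j).pos := by
      intro j a ha
      obtain ⟨i, rfl⟩ := hf j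
      obtain ⟨r, hr, hr1⟩ := h1 i a ha
      refine ⟨r, hr, ?_⟩
      intro x hx i' hi'
      have ha' : a ∈ FinSub ((θ ∘ f) i').pos := by
        simp only [Function.comp, hi']; exact ha
      obtain ⟨r', hr', hr1'⟩ := h1 i' a ha'
      have := Part.mem_unique hr' hr
      subst this
      exact hr1' x hx
    refine Ent.intro F G hF hG hpos ?_
    intro j a ha b hb
    obtain ⟨i, rfl, hbi⟩ := hb
    obtain ⟨s, hs, hs1, hs2⟩ := h2 i a ha b hbi
    obtain ⟨r, hr, hr1⟩ := hpos (f i) a ha
    refine ⟨s, hs, hs1, ?_⟩
    intro hall t ht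
    have := Part.mem_unique ht hr
    subst this
    refine ⟨hr1, ⟨i, rfl, hbi⟩, ?_⟩
    intro i' hi' hbi'
    have ha' : a ∈ FinSub ((θ ∘ f) i').pos := by
      simp only [Function.comp, hi']; exact ha
    obtain ⟨s', hs', hs1', hs2'⟩ := h2 i' a ha' b hbi'
    have := Part.mem_unique hs' hs
    subst this
    refine hs2' (fun c hc => ?_) t ht
    simp only [Function.comp, hi']
    exact hall c hc

theorem top_is_top {I : Type} (θ : I → Sig) : Ent θ (fun _ => topS) := by
  refine Ent.intro' (fun _ => 0) (fun _ => 0) (Computable.const _) (Computable.const _) ?_ ?_ ?_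
  · intro i a _; exact zero_mem_star _
  · intro i a _ b _; exact zero_mem_star _
  · intro i a _ b hb _
    exact hb.elim

theorem isImp_top {I : Type} {D Db : I → Sig} (hD : IsBot D) : IsImp D Db (fun _ => topS) := by
  intro θ m hm
  constructor
  · intro _
    exact ((hm m).1 (Ent.refl m)).2.trans (hD Db)
  · intro _
    exact top_is_top θ

theorem isBot_of_all {M : Type} [Nontrivial M] {D3 : (Fin 2 → M) → Sig}
    {D4 : (Fin 1 → M) → Sig} {D5 : (Fin 0 → M) → Sig}
    (h3 : Ent D3 (jj (Fin 2 → M) {v | v 0 = v 1})) (h4 : IsAll tl D3 D4) (h5 : IsAll tl D4 D5) :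
    IsBot D5 := by
  have h6 : Ent (D5 ∘ tl) D4 := (h5 D5).1 (Ent.refl _)
  have h7 : Ent (D4 ∘ tl) D3 := (h4 D4).1 (Ent.refl _)
  have h8 : Ent ((D5 ∘ tl) ∘ tl) (jj (Fin 2 → M) {v | v 0 = v 1}) :=
    ((h6.comp tl).trans h7).trans h3
  obtain ⟨F, G, hF, hG, h1, h2⟩ := h8.elim
  obtain ⟨x, y, hxy⟩ := exists_pair_ne M
  intro θ
  have hG' : Partrec (fun n : ℕ => G (Nat.pair n.unpair.1 0)) :=
    hG.comp ((Primrec₂.natPair.to_comp).comp computable_fst (Computable.const _))
  refine Ent.intro (fun _ => Part.some 0) _ (Computable.const 0) hG' ?_ ?_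
  · intro v a _
    exact ⟨0, Part.mem_some _, zero_mem_star _⟩
  · intro v a ha b _
    have e1 : tl (tl (![x, y] : Fin 2 → M)) = v := Subsingleton.elim _ _
    have e2 : tl (tl (![x, x] : Fin 2 → M)) = v := Subsingleton.elim _ _
    have ha1 : a ∈ FinSub (((D5 ∘ tl) ∘ tl) (![x, y] : Fin 2 → M)).pos := by
      simp only [Function.comp, e1]; exact ha
    have ha2 : a ∈ FinSub (((D5 ∘ tl) ∘ tl) (![x, x] : Fin 2 → M)).pos := by
      simp only [Function.comp, e2]; exact ha
    obtain ⟨r, hr, hr1⟩ := h1 _ a ha1
    have hr0 : els r = [] := by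
      rw [List.eq_nil_iff_forall_not_mem]
      intro z hz
      have := (hr1 z hz).2
      exact hxy this
    obtain ⟨s, hs, hs1, hs2⟩ := h2 (![x, x] : Fin 2 → M) a ha2 0 ⟨rfl, rfl⟩
    refine ⟨s, by simpa using hs, ?_, ?_⟩
    · simpa only [Function.comp, e2] using hs1
    · intro hall t _
      exfalso
      have h9 := hs2 (fun c hc => by simp only [Function.comp, e2]; exact hall c hc) r hr
      have h10 : 0 ∈ els r := h9.2.2
      rw [hr0] at h10
      exact List.not_mem_nil h10

theorem tl_surj {M : Type} [Nonempty M] {n : ℕ} :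
    Function.Surjective (tl : (Fin (n + 1) → M) → (Fin n → M)) := by
  intro v
  obtain ⟨x⟩ := ‹Nonempty M›
  exact ⟨Fin.cons x v, tl_cons x v⟩

theorem interp_decEq (L : FirstOrder.Language.{0, 0}) (M : Type) [L.Structure M] [Nontrivial M] :
    Interp img M (decEq L) (allP tl (allP tl (jj (Fin 2 → M) {v | v 0 = v 1}))) := by
  refine ⟨_, ⟨_, ⟨_, _, rfl, ⟨_, _, rfl, int_bot (A := ∅) (fun i hi => hi), isImp_lit {v : Fin 2 → M | v 0 = v 1}
    (int_bot (A := ∅) (fun i hi => hi))⟩, ?_⟩, isAll_allP tl_surj _⟩, isAll_allP tl_surj _⟩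
  exact isJoin_jj {v : Fin 2 → M | v 0 = v 1}

theorem decEq_bot (L : FirstOrder.Language.{0, 0}) (M : Type) [L.Structure M] [Nontrivial M]
    (D : (Fin 0 → M) → Sig) (hD : Interp img M (decEq L) D) : IsBot D := by
  obtain ⟨D4, ⟨D3, ⟨D1, D2, hD1, ⟨D1', Db, hD1', hDb, himp⟩, hjoin⟩, h4⟩, h5⟩ := hD
  have e1 : D1 = img (Fin 2 → M) {v | v 0 = v 1} := hD1
  have e1' : D1' = img (Fin 2 → M) {v | v 0 = v 1} := hD1'
  subst e1; subst e1'
  have h2 : Ent D2 (lit (Fin 2 → M) {v | v 0 = v 1}ᶜ) :=
    himp.mono (isImp_lit _ hDb) (Equ.refl _) (Ent.refl _)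
  exact isBot_of_all ((hjoin _).2 ⟨img_le_jj _, h2.trans (lit_le_jj _)⟩) h4 h5

theorem img_mono {I : Type} {A B : Set I} (h : A ⊆ B) : Ent (img I A) (img I B) := by
  refine Ent.intro' (fun a => a) (fun _ => code [0]) Computable.id (Computable.const _) ?_ ?_ ?_
  · intro i a ha x hx
    exact ⟨(ha x hx).1, h (ha x hx).2⟩
  · intro i a _ b _
    rw [mem_star_code]
    simp [img]
  · intro i a ha b hb hall
    rw [els_code] at hall
    have h0 := hall 0 (List.mem_singleton.2 rfl)
    exact ⟨fun x hx => ⟨(ha x hx).1, h (ha x hx).2⟩, hb, h0.2.2⟩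

theorem img_meet_le {I : Type} (A B : Set I) : Ent (meet (img I A) (img I B)) (img I (A ∩ B)) := by
  have hF : Computable (fun n : ℕ => if els (prj 0 n) = [] then 0
      else if els (prj 1 n) = [] then 0 else code [0]) := by
    have hp : ∀ k, Primrec (fun n : ℕ => els (prj k n)) := by
      intro k
      have h : Primrec (fun a : ℕ => (els a).filterMap fun y =>
          if y.unpair.1 = k then some y.unpair.2 else none) := by
        refine Primrec.listFilterMap (Primrec.ofNat (List ℕ)) ?_
        refine Primrec.ite ?_ ?_ (Primrec.const none)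
        · exact Primrec.eq.comp (Primrec.fst.comp (Primrec.unpair.comp Primrec.snd))
            (Primrec.const k)
        · exact Primrec.option_some.comp (Primrec.snd.comp (Primrec.unpair.comp Primrec.snd))
      refine h.of_eq (fun n => ?_)
      simp [prj]
    have : Primrec (fun n : ℕ => if els (prj 0 n) = [] then 0
      else if els (prj 1 n) = [] then 0 else code [0]) := by
      refine Primrec.ite (Primrec.eq.comp (hp 0) (Primrec.const [])) (Primrec.const _) ?_
      exact Primrec.ite (Primrec.eq.comp (hp 1) (Primrec.const [])) (Primrec.const _)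
        (Primrec.const _)
    exact this.to_comp
  refine Ent.intro' _ (fun _ => code [Nat.pair 0 0, Nat.pair 1 0]) hF (Computable.const _) ?_ ?_ ?_
  · intro i a ha
    by_cases h0 : els (prj 0 a) = []
    · simp only [h0, if_true]; exact zero_mem_star _
    · by_cases h1 : els (prj 1 a) = []
      · simp only [h0, if_false, h1, if_true]; exact zero_mem_star _
      · simp only [h0, if_false, h1]
        obtain ⟨x, hx⟩ := List.exists_mem_of_ne_nil _ h0
        obtain ⟨y, hy⟩ := List.exists_mem_of_ne_nil _ h1
        rw [mem_star_code]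
        intro z hz
        exact ⟨List.mem_singleton.1 hz, (prj_mem_star0 ha x hx).2, (prj_mem_star1 ha y hy).2⟩
  · intro i a _ b _
    rw [mem_star_code]
    intro x hx
    simp only [List.mem_cons, List.not_mem_nil, or_false] at hx
    rcases hx with rfl | rfl
    · exact pair0_mem.2 rfl
    · exact pair1_mem.2 rfl
  · intro i a ha b hb hall
    rw [els_code] at hall
    have h0 := (meetS_rel0.1 (hall (Nat.pair 0 0) (by simp))).2
    have h1 := (meetS_rel1.1 (hall (Nat.pair 1 0) (by simp))).2
    have e0 : els (prj 0 a) ≠ [] := List.ne_nil_of_mem h0.2.2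
    have e1 : els (prj 1 a) ≠ [] := List.ne_nil_of_mem h1.2.2
    simp only [e0, e1, if_false]
    refine ⟨?_, hb, by simp⟩
    rw [mem_star_code]
    intro z hz
    exact ⟨List.mem_singleton.1 hz, (prj_mem_star0 ha 0 h0.2.2).2, (prj_mem_star1 ha 0 h1.2.2).2⟩

theorem img_meet {I : Type} (A B : Set I) : IsMeet (img I A) (img I B) (img I (A ∩ B)) := by
  intro θ
  constructor
  · intro h
    exact ⟨h.trans (img_mono Set.inter_subset_left), h.trans (img_mono Set.inter_subset_right)⟩
  · rintro ⟨h, h'⟩
    exact (meet_intro h h').trans (img_meet_le A B)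

theorem not_holds_of_isBot {I : Type} {D : I → Sig} (hD : IsBot D) (v : I) : ¬ Holds D v := by
  intro h
  have := holds_congr (hD (int I ∅)) h
  exact holds_int.1 this

end Pool.Agent.R625.Dst
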