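import Mathlib
import Pool.Agent.R625.DstDefs

/-!
# Functional relations and natural numbers objects in the `D_st`-topos: definitions

The topos has as objects the pairs `(X, E)` with `IsObj E`, and as morphisms `(X, E) → (Y, E')` the
functional relations `F` over `X × Y`, taken up to equivalence.
-/

namespace Pool.Agent.R625.Dst

/-- `F` is a functional relation from `(X, E)` to `(Y, E')`: strict, relational, single-valued and
total. -/
structure IsFun {X Y : Type} (E : X × X → Sig) (E' : Y × Y → Sig) (F : X × Y → Sig) : Prop where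
  /-- `F(x, y) ⊢ E(x, x)` -/
  strict_left : Ent F (fun p => E (p.1, p.1))
  /-- `F(x, y) ⊢ E'(y, y)` -/
  strict_right : Ent F (fun p => E' (p.2, p.2))
  /-- `F(x, y) ∧ E(x, x') ∧ E'(y, y') ⊢ F(x', y')` -/
  relational : ∀ m m' : (X × X) × (Y × Y) → Sig,
    IsMeet (fun t => F (t.1.1, t.2.1)) (fun t => E t.1) m →
    IsMeet m (fun t => E' t.2) m' → Ent m' (fun t => F (t.1.2, t.2.2))
  /-- `F(x, y) ∧ F(x, y') ⊢ E'(y, y')` -/
  single : ∀ m : X × (Y × Y) → Sig,
    IsMeet (fun t => F (t.1, t.2.1)) (fun t => F (t.1, t.2.2)) m → Ent m (fun t => E' t.2)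
  /-- `E(x, x) ⊢ ∃ y, F(x, y)` -/
  total : ∀ D : X → Sig, IsEx Prod.fst F D → Ent (fun x => E (x, x)) D

/-- `H` is the composite `∃ y, F(x, y) ∧ G(y, z)` of `F` and `G`. -/
def IsComp {X Y Z : Type} (F : X × Y → Sig) (G : Y × Z → Sig) (H : X × Z → Sig) : Prop :=
  ∃ m : X × Y × Z → Sig,
    IsMeet (fun t => F (t.1, t.2.1)) (fun t => G (t.2.1, t.2.2)) m ∧
    IsEx (fun t : X × Y × Z => (t.1, t.2.2)) m H

/-- The equality predicate of the terminal object. -/
def one : Unit × Unit → Sig := fun _ => topS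

/-- `h : (N, E) → (X, E')` is a morphism with `h ∘ z = a` and `h ∘ s = t ∘ h`. -/
def IsRec {N X : Type} (E : N × N → Sig) (z : Unit × N → Sig) (s : N × N → Sig)
    (E' : X × X → Sig) (a : Unit × X → Sig) (t : X × X → Sig) (h : N × X → Sig) : Prop :=
  IsFun E E' h ∧ IsComp z h a ∧ ∃ k : N × X → Sig, IsComp s h k ∧ IsComp h t k

/-- `((N, E), z, s)` is a natural numbers object: for all `a : 1 → (X, E')` and
`t : (X, E') → (X, E')` there is a unique morphism `h : (N, E) → (X, E')` with `h ∘ z = a` and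
`h ∘ s = t ∘ h`. -/
def IsNNO {N : Type} (E : N × N → Sig) (z : Unit × N → Sig) (s : N × N → Sig) : Prop :=
  IsObj E ∧ IsFun one E z ∧ IsFun E E s ∧
    ∀ (X : Type) (E' : X × X → Sig) (a : Unit × X → Sig) (t : X × X → Sig),
      IsObj E' → IsFun one E' a → IsFun E' E' t →
      ∃ h : N × X → Sig, IsRec E z s E' a t h ∧
        ∀ h' : N × X → Sig, IsRec E z s E' a t h' → Equ h h'

/-- The graph `{0}` of the element `0` of `ℕ`. -/
def zeroGraph : Set (Unit × ℕ) := {p | p.2 = 0}

/-- The graph of the successor function of `ℕ`. -/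
def succGraph : Set (ℕ × ℕ) := {p | p.2 = p.1 + 1}

end Pool.Agent.R625.Dst
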