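import Mathlib
import Pool.Agent.R625.DstImage

/-!
# Lemmas for the theorem on the constant-objects functor
-/

namespace Pool.Agent.R625.Dst

open FirstOrder.Language

theorem pointwise_lit : Pointwise lit := by
  intro I A i
  constructor
  · intro h
    have e := lit_of_mem h
    rw [e]
    exact Equ.refl _
  · intro h
    have e := lit_of_not_mem h
    rw [e]
    exact Equ.refl _

theorem ent_to_bot {p : Sig} (h : ∀ a ∈ FinSub p.pos, ¬ p.rel a 0) (h0 : 0 ∈ p.neg) (χ : Unit → Sig) :
    Ent (fun _ : Unit => p) χ := by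
  refine Ent.intro' (fun _ => 0) (fun _ => code [0]) (Computable.const _) (Computable.const _)
    ?_ ?_ ?_
  · intro _ a _; exact zero_mem_star _
  · intro _ a _ b _
    rw [mem_star_code]
    intro x hx
    rw [List.mem_singleton.1 hx]
    exact h0
  · intro _ a ha b _ hall
    rw [els_code] at hall
    exact absurd (hall 0 (List.mem_singleton.2 rfl)) (h a ha)

theorem botS_le (χ : Unit → Sig) : Ent (fun _ : Unit => botS) χ :=
  ent_to_bot (p := botS) (fun _ _ h => h) rfl χ

theorem top_le {p : Sig} {a : ℕ} (ha : a ∈ FinSub p.pos) (h : ∀ y ∈ p.neg, p.rel a y) :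
    Ent (fun _ : Unit => topS) (fun _ : Unit => p) := by
  refine Ent.intro' (fun _ => a) (fun _ => 0) (Computable.const _) (Computable.const _) ?_ ?_ ?_
  · intro _ _ _; exact ha
  · intro _ _ _ b _; exact zero_mem_star _
  · intro _ _ _ b hb _; exact h b hb

theorem pointwise_img : Pointwise img := by
  intro I A i
  constructor
  · intro h
    have hs : code [0] ∈ FinSub (img I A i).pos := by
      rw [mem_star_code]
      intro x hx
      exact ⟨List.mem_singleton.1 hx, h⟩
    refine ⟨top_is_top _, top_le hs ?_⟩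
    intro y hy
    exact ⟨hs, hy, by simp⟩
  · intro h
    refine ⟨ent_to_bot (p := img I A i) ?_ rfl _, botS_le _⟩
    rintro a ha ⟨-, -, h0⟩
    exact h (ha 0 h0).2

theorem pointwise_int : Pointwise int := by
  intro I A i
  constructor
  · intro h
    refine ⟨top_is_top _, top_le (zero_mem_star _) ?_⟩
    intro y hy
    exact ⟨zero_mem_star _, hy, h⟩
  · intro h
    refine ⟨ent_to_bot (p := int I A i) ?_ rfl _, botS_le _⟩
    rintro a ha ⟨-, -, h0⟩
    exact h h0

theorem isObj_of {κ : (I : Type) → Set I → I → Sig}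
    (hmono : ∀ {I : Type} {A B : Set I}, A ⊆ B → Ent (κ I A) (κ I B))
    (hmeet : ∀ {I : Type} (A B : Set I), IsMeet (κ I A) (κ I B) (κ I (A ∩ B)))
    (hre : ∀ {I J : Type} (f : J → I) (A : Set I), (κ I A) ∘ f = κ J (f ⁻¹' A)) (X : Type) :
    IsObj (κ (X × X) (diag X)) := by
  constructor
  · have h := hre (fun p : X × X => (p.2, p.1)) (diag X)
    have h2 : Ent (κ (X × X) (diag X)) (κ (X × X) ((fun p : X × X => (p.2, p.1)) ⁻¹' diag X)) :=
      hmono (fun p hp => Eq.symm hp)
    rw [← h] at h2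
    exact h2
  · intro m hm
    have h1 : Ent m (κ (X × X) (diag X) ∘ fun t : X × X × X => (t.1, t.2.1)) :=
      ((hm m).1 (Ent.refl m)).1
    have h2 : Ent m (κ (X × X) (diag X) ∘ fun t : X × X × X => (t.2.1, t.2.2)) :=
      ((hm m).1 (Ent.refl m)).2
    rw [hre] at h1 h2
    have h3 := (hmeet _ _ m).2 ⟨h1, h2⟩
    have h4 : Ent m (κ (X × X) (diag X) ∘ fun t : X × X × X => (t.1, t.2.2)) := by
      rw [hre]
      refine h3.trans (hmono ?_)
      rintro t ⟨ht1, ht2⟩
      exact Eq.trans ht1 ht2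
    exact h4

theorem not_isObj_lit (X : Type) [Nontrivial X] : ¬ IsObj (lit (X × X) (diag X)) := by
  rintro ⟨-, h⟩
  obtain ⟨x, y, hxy⟩ := exists_pair_ne X
  have h := h _ (isMeet_meet _ _)
  obtain ⟨F, G, hF, hG, h1, h2⟩ := h.elim
  have m1 : lit (X × X) (diag X) (y, x) = botS := lit_of_not_mem (fun h => hxy (Eq.symm h))
  have m2 : lit (X × X) (diag X) (x, y) = botS := lit_of_not_mem (fun h => hxy h)
  have m3 : ∀ z : X, lit (X × X) (diag X) (z, z) = topS := fun z => lit_of_mem rfl
  obtain ⟨s, hs, hs1, hs2⟩ := h2 (y, x, x) 0 (zero_mem_star _) 0 (by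
    change 0 ∈ (lit (X × X) (diag X) (y, x)).neg
    rw [m1]; rfl)
  obtain ⟨s', hs', hs1', -⟩ := h2 (x, x, y) 0 (zero_mem_star _) 0 (by
    change 0 ∈ (lit (X × X) (diag X) (x, y)).neg
    rw [m2]; rfl)
  have := Part.mem_unique hs' hs
  subst this
  obtain ⟨r, hr, -⟩ := h1 (y, x, x) 0 (zero_mem_star _)
  have h5 := hs2 (fun c hc => by
    exfalso
    have a1 : c ∈ Plus (lit (X × X) (diag X) (y, x)).neg (lit (X × X) (diag X) (x, x)).neg :=
      hs1 c hc
    have a2 : c ∈ Plus (lit (X × X) (diag X) (x, x)).neg (lit (X × X) (diag X) (x, y)).neg :=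
      hs1' c hc
    rw [m1, m3] at a1
    rw [m2, m3] at a2
    rcases a1 with ⟨d, hd, rfl⟩ | ⟨d, hd, rfl⟩
    · exact pair0_mem.1 a2
    · exact hd) r hr
  have h6 : (lit (X × X) (diag X) (y, x)).rel r 0 := h5
  rw [m1] at h6
  exact h6

theorem sat_decEq (L : FirstOrder.Language.{0, 0}) (M : Type) [L.Structure M] (v : Fin 0 → M) :
    Sat M (decEq L) v := by
  intro x y
  exact Classical.em _

theorem not_sat_notDecEq (L : FirstOrder.Language.{0, 0}) (M : Type) [L.Structure M]
    (v : Fin 0 → M) : ¬ Sat M (notDecEq L) v :=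
  fun h => h (sat_decEq L M v)

theorem interp_notDecEq (L : FirstOrder.Language.{0, 0}) (M : Type) [L.Structure M]
    [Nontrivial M] : Interp img M (notDecEq L) (fun _ => topS) :=
  ⟨_, _, interp_decEq L M, int_bot (A := ∅) (fun _ hi => hi),
    isImp_top (decEq_bot L M _ (interp_decEq L M))⟩

theorem holds_notDecEq (L : FirstOrder.Language.{0, 0}) (M : Type) [L.Structure M]
    [Nontrivial M] (D : (Fin 0 → M) → Sig) (hD : Interp img M (notDecEq L) D) (v : Fin 0 → M) :
    Holds D v := by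
  have h := interp_mono (κ := img) (κ' := img) (fun _ _ => Equ.refl _) M (notDecEq L)
    (interp_notDecEq L M) hD
  exact holds_congr h.1 (top_is_top _)

end Pool.Agent.R625.Dst
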