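import Mathlib
import Pool.Agent.R625.DstQ1
import Pool.Agent.R625.DstNNODefs

/-!
# `∇ℕ` is not a natural numbers object
-/

namespace Pool.Agent.R625.Dst

/-- The properties of the atomic predicates that are used. -/
structure Good (κ : (I : Type) → Set I → I → Sig) : Prop where
  mono : ∀ {I : Type} {A B : Set I}, A ⊆ B → Ent (κ I A) (κ I B)
  meet : ∀ {I : Type} (A B : Set I), IsMeet (κ I A) (κ I B) (κ I (A ∩ B))
  re : ∀ {I J : Type} (f : J → I) (A : Set I), (κ I A) ∘ f = κ J (f ⁻¹' A)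
  univ : ∀ {I : Type} (θ : I → Sig), Ent θ (κ I Set.univ)
  neg : ∀ (I : Type) (A : Set I) (i : I), (κ I A i).neg = {0}
  rel : ∀ (I : Type) (A : Set I) (i : I) (a y : ℕ), (κ I A i).rel a y → i ∈ A

theorem good_img : Good img where
  mono := img_mono
  meet := img_meet
  re := fun _ _ => rfl
  univ := by
    intro I θ
    refine Ent.intro' (fun _ => code [0]) (fun _ => 0) (Computable.const _) (Computable.const _)
      ?_ ?_ ?_
    · intro i a _
      rw [mem_star_code]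
      intro x hx
      exact ⟨List.mem_singleton.1 hx, trivial⟩
    · intro i a _ b _; exact zero_mem_star _
    · intro i a _ b hb _
      refine ⟨?_, hb, by simp⟩
      rw [mem_star_code]
      intro x hx
      exact ⟨List.mem_singleton.1 hx, trivial⟩
  neg := fun _ _ _ => rfl
  rel := fun I A i a y h => (h.1 0 h.2.2).2

theorem good_int : Good int where
  mono := int_mono
  meet := int_meet
  re := fun _ _ => rfl
  univ := by
    intro I θ
    refine Ent.intro' (fun _ => 0) (fun _ => 0) (Computable.const _) (Computable.const _)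
      ?_ ?_ ?_
    · intro i a _; exact zero_mem_star _
    · intro i a _ b _; exact zero_mem_star _
    · intro i a _ b hb _
      exact ⟨zero_mem_star _, hb, trivial⟩
  neg := fun _ _ _ => rfl
  rel := fun I A i a y h => h.2.2

/-- The standardness predicate. -/
def st (n : ℕ) : Sig where
  pos := Set.univ
  neg := {0}
  rel := fun a y => y = 0 ∧ n ∈ els a
  dom := fun _ _ h => ⟨fun _ _ => trivial, h.1⟩
  up := fun _ _ _ h _ hs => ⟨h.1, hs _ h.2⟩

theorem not_top_st : ¬ Ent (fun _ : ℕ => topS) st := by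
  intro h
  obtain ⟨F, G, hF, hG, h1, h2⟩ := h.elim
  obtain ⟨r, hr, -⟩ := h1 0 0 (zero_mem_star _)
  obtain ⟨n, hn⟩ : ∃ n, n ∉ els r := by
    obtain ⟨n, hn⟩ := Infinite.exists_notMem_finset (els r).toFinset
    exact ⟨n, fun h => hn (List.mem_toFinset.2 h)⟩
  obtain ⟨s, hs, hs1, hs2⟩ := h2 n 0 (zero_mem_star _) 0 rfl
  exact hn (hs2 (fun c hc => absurd (hs1 c hc) (Set.notMem_empty c)) r hr).2

theorem computable_map_prj {u : ℕ → ℕ} (hu : Primrec u) (k : ℕ) :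
    Computable (fun a : ℕ => code ((els (prj k a)).map u)) := by
  have hp : Primrec (fun n : ℕ => els (prj k n)) := by
    have h : Primrec (fun a : ℕ => (els a).filterMap fun y =>
        if y.unpair.1 = k then some y.unpair.2 else none) := by
      refine Primrec.listFilterMap (Primrec.ofNat (List ℕ)) ?_
      refine Primrec.ite ?_ ?_ (Primrec.const none)
      · exact Primrec.eq.comp (Primrec.fst.comp (Primrec.unpair.comp Primrec.snd))
          (Primrec.const k)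
      · exact Primrec.option_some.comp (Primrec.snd.comp (Primrec.unpair.comp Primrec.snd))
    refine h.of_eq (fun n => ?_)
    simp [prj]
  have h : Primrec (fun a : ℕ => (els (prj k a)).map u) :=
    Primrec.list_map hp (hu.comp Primrec.snd)
  exact computable_code.comp h.to_comp

section

variable {κ : (I : Type) → Set I → I → Sig}

theorem Good.and (hκ : Good κ) {I : Type} {m : I → Sig} {A B C : Set I} (hA : Ent m (κ I A))
    (hB : Ent m (κ I B)) (h : A ∩ B ⊆ C) : Ent m (κ I C) :=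
  ((hκ.meet A B m).2 ⟨hA, hB⟩).trans (hκ.mono h)

/-- Standardness is transported along a computable function. -/
theorem Good.st_map (hκ : Good κ) {I : Type} {m : I → Sig} {A : Set I} (u : ℕ → ℕ)
    (hu : Primrec u) (p q : I → ℕ) (h : ∀ i ∈ A, q i = u (p i)) (hA : Ent m (κ I A))
    (hp : Ent m (fun i => st (p i))) : Ent m (fun i => st (q i)) := by
  refine (meet_intro hp hA).trans ?_
  refine Ent.intro' (fun a => code ((els (prj 0 a)).map u))
    (fun _ => code [Nat.pair 0 0, Nat.pair 1 0]) (computable_map_prj hu 0) (Computable.const _)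
    ?_ ?_ ?_
  · intro i a _ x _; exact trivial
  · intro i a _ b _
    rw [mem_star_code]
    intro x hx
    simp only [List.mem_cons, List.not_mem_nil, or_false] at hx
    rcases hx with rfl | rfl
    · exact pair0_mem.2 rfl
    · refine pair1_mem.2 ?_
      rw [hκ.neg]; rfl
  · intro i a ha b hb hall
    rw [els_code] at hall
    have h0 := (meetS_rel0.1 (hall (Nat.pair 0 0) (by simp))).2
    have h1 := (meetS_rel1.1 (hall (Nat.pair 1 0) (by simp))).2
    have hi := hκ.rel _ _ _ _ _ h1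
    refine ⟨hb, ?_⟩
    rw [els_code, h i hi]
    exact List.mem_map_of_mem h0.2

theorem Good.st_const (hκ : Good κ) {I : Type} {m : I → Sig} {A : Set I} (c : ℕ)
    (q : I → ℕ) (h : ∀ i ∈ A, q i = c) (hA : Ent m (κ I A)) :
    Ent m (fun i => st (q i)) := by
  refine hA.trans ?_
  refine Ent.intro' (fun _ => code [c]) (fun _ => code [0]) (Computable.const _)
    (Computable.const _) ?_ ?_ ?_
  · intro i a _ x _; exact trivial
  · intro i a _ b _
    rw [mem_star_code]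
    intro x hx
    rw [List.mem_singleton.1 hx, hκ.neg]
    rfl
  · intro i a ha b hb hall
    rw [els_code] at hall
    have hi := hκ.rel _ _ _ _ _ (hall 0 (List.mem_singleton.2 rfl))
    refine ⟨hb, ?_⟩
    rw [els_code, h i hi]
    exact List.mem_singleton.2 rfl

/-- Reindexing of an entailment to an atomic predicate. -/
theorem Good.sub (hκ : Good κ) {I J : Type} {φ : I → Sig} {A : Set I} (h : Ent φ (κ I A))
    (f : J → I) : Ent (fun j => φ (f j)) (κ J (f ⁻¹' A)) := by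
  have := h.comp f
  rw [hκ.re] at this
  exact this

theorem Good.at (hκ : Good κ) {I J : Type} {A : Set I} (f : J → I) {m : J → Sig}
    (h : Ent m (fun j => κ I A (f j))) : Ent m (κ J (f ⁻¹' A)) := by
  have := hκ.re f A
  rw [← this]
  exact h

theorem Good.to (hκ : Good κ) {I J : Type} {A : Set I} {B : Set J} (f : J → I) {m : J → Sig}
    (h : Ent m (κ J B)) (hB : ∀ j ∈ B, f j ∈ A) : Ent m (fun j => κ I A (f j)) := by
  have := hκ.re f A
  have h2 : Ent m (κ J (f ⁻¹' A)) := h.trans (hκ.mono hB)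
  rw [← this] at h2
  exact h2

/-- Equality on the standard numbers. -/
def Est (κ : (I : Type) → Set I → I → Sig) : ℕ × ℕ → Sig :=
  meet (fun p => st p.1) (κ (ℕ × ℕ) (diag ℕ))

/-- The successor on the standard numbers. -/
def Sst (κ : (I : Type) → Set I → I → Sig) : ℕ × ℕ → Sig :=
  meet (fun p => st p.1) (κ (ℕ × ℕ) succGraph)

theorem est_iff {I : Type} {m : I → Sig} (f : I → ℕ × ℕ) :
    Ent m (fun i => Est κ (f i)) ↔
      Ent m (fun i => st (f i).1) ∧ Ent m (fun i => κ (ℕ × ℕ) (diag ℕ) (f i)) := by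
  have h := isMeet_meet (fun i => st (f i).1) (fun i => κ (ℕ × ℕ) (diag ℕ) (f i)) m
  exact h

theorem sst_iff {I : Type} {m : I → Sig} (f : I → ℕ × ℕ) :
    Ent m (fun i => Sst κ (f i)) ↔
      Ent m (fun i => st (f i).1) ∧ Ent m (fun i => κ (ℕ × ℕ) succGraph (f i)) := by
  have h := isMeet_meet (fun i => st (f i).1) (fun i => κ (ℕ × ℕ) succGraph (f i)) m
  exact h

theorem isObj_est (hκ : Good κ) : IsObj (Est κ) := by
  constructor
  · have h := (est_iff (κ := κ) (m := Est κ) (fun p : ℕ × ℕ => p)).1 (Ent.refl _)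
    have h2 := hκ.at (fun p : ℕ × ℕ => p) h.2
    refine (est_iff (κ := κ) (fun p : ℕ × ℕ => (p.2, p.1))).2 ⟨?_, ?_⟩
    · exact hκ.st_map id Primrec.id (fun p : ℕ × ℕ => p.1) (fun p : ℕ × ℕ => p.2)
        (fun p hp => Eq.symm hp) h2 h.1
    · exact hκ.to _ h2 (fun p hp => Eq.symm hp)
  · intro m hm
    have h1 := ((hm m).1 (Ent.refl m)).1
    have h2 := ((hm m).1 (Ent.refl m)).2
    have h1' := (est_iff (κ := κ) (fun t : ℕ × ℕ × ℕ => (t.1, t.2.1))).1 h1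
    have h2' := (est_iff (κ := κ) (fun t : ℕ × ℕ × ℕ => (t.2.1, t.2.2))).1 h2
    have a1 := hκ.at (fun t : ℕ × ℕ × ℕ => (t.1, t.2.1)) h1'.2
    have a2 := hκ.at (fun t : ℕ × ℕ × ℕ => (t.2.1, t.2.2)) h2'.2
    refine (est_iff (κ := κ) (fun t : ℕ × ℕ × ℕ => (t.1, t.2.2))).2 ⟨h1'.1, ?_⟩
    refine hκ.to (B := {t : ℕ × ℕ × ℕ | t.1 = t.2.2}) _ (hκ.and a1 a2 ?_) (fun t ht => ht)
    rintro t ⟨ht1, ht2⟩
    exact Eq.trans ht1 ht2

theorem isFun_zero_est (hκ : Good κ) : IsFun one (Est κ) (κ (Unit × ℕ) zeroGraph) where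
  strict_left := top_is_top _
  strict_right := by
    refine (est_iff (κ := κ) (fun p : Unit × ℕ => (p.2, p.2))).2 ⟨?_, ?_⟩
    · exact hκ.st_const 0 (fun p : Unit × ℕ => p.2) (fun p hp => hp) (Ent.refl _)
    · exact hκ.to _ (Ent.refl _) (fun p _ => rfl)
  relational := by
    intro m m' hm hm'
    have h1 := ((hm m).1 (Ent.refl m)).1
    have h2 := (hm' m').1 (Ent.refl m')
    have h3 := hκ.at (fun t : (Unit × Unit) × (ℕ × ℕ) => (t.1.1, t.2.1)) (h2.1.trans h1)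
    have h4 := (est_iff (κ := κ) (fun t : (Unit × Unit) × (ℕ × ℕ) => t.2)).1 h2.2
    have h5 := hκ.at (fun t : (Unit × Unit) × (ℕ × ℕ) => t.2) h4.2
    refine hκ.to (B := {t : (Unit × Unit) × (ℕ × ℕ) | t.2.2 = 0}) _ (hκ.and h3 h5 ?_)
      (fun t ht => ht)
    rintro t ⟨ht1, ht2⟩
    exact Eq.trans (Eq.symm ht2) ht1
  single := by
    intro m hm
    have h := (hm m).1 (Ent.refl m)
    have h1 := hκ.at (fun t : Unit × (ℕ × ℕ) => (t.1, t.2.1)) h.1
    have h2 := hκ.at (fun t : Unit × (ℕ × ℕ) => (t.1, t.2.2)) h.2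
    refine (est_iff (κ := κ) (fun t : Unit × (ℕ × ℕ) => t.2)).2 ⟨?_, ?_⟩
    · exact hκ.st_const 0 (fun t : Unit × (ℕ × ℕ) => t.2.1) (fun p hp => hp) h1
    · refine hκ.to (B := {t : Unit × (ℕ × ℕ) | t.2.1 = t.2.2}) _ (hκ.and h1 h2 ?_)
        (fun t ht => ht)
      rintro t ⟨ht1, ht2⟩
      exact Eq.trans ht1 (Eq.symm ht2)
  total := by
    intro D hD
    have h1 := ((hD D).1 (Ent.refl D)).comp (fun u : Unit => (u, 0))
    have h2 : Ent (fun _ : Unit => one ((), ())) (κ Unit Set.univ) := hκ.univ _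
    have h3 := hκ.to (A := zeroGraph) (fun u : Unit => (u, 0)) h2 (fun _ _ => rfl)
    exact h3.trans h1

theorem isFun_sst (hκ : Good κ) : IsFun (Est κ) (Est κ) (Sst κ) where
  strict_left := by
    have h := (sst_iff (κ := κ) (m := Sst κ) (fun p : ℕ × ℕ => p)).1 (Ent.refl _)
    refine (est_iff (κ := κ) (fun p : ℕ × ℕ => (p.1, p.1))).2 ⟨h.1, ?_⟩
    exact hκ.to _ (hκ.univ _) (fun p _ => rfl)
  strict_right := by
    have h := (sst_iff (κ := κ) (m := Sst κ) (fun p : ℕ × ℕ => p)).1 (Ent.refl _)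
    refine (est_iff (κ := κ) (fun p : ℕ × ℕ => (p.2, p.2))).2 ⟨?_, ?_⟩
    · exact hκ.st_map Nat.succ Primrec.succ (fun p : ℕ × ℕ => p.1) (fun p : ℕ × ℕ => p.2)
        (fun p hp => hp) (hκ.at (fun p : ℕ × ℕ => p) h.2) h.1
    · exact hκ.to _ (hκ.univ _) (fun p _ => rfl)
  relational := by
    intro m m' hm hm'
    have h0 := (hm' m').1 (Ent.refl m')
    have h1 := (hm m).1 (Ent.refl m)
    have a := (sst_iff (κ := κ) (fun t : (ℕ × ℕ) × (ℕ × ℕ) => (t.1.1, t.2.1))).1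
      (h0.1.trans h1.1)
    have b := (est_iff (κ := κ) (fun t : (ℕ × ℕ) × (ℕ × ℕ) => t.1)).1 (h0.1.trans h1.2)
    have c := (est_iff (κ := κ) (fun t : (ℕ × ℕ) × (ℕ × ℕ) => t.2)).1 h0.2
    have a2 := hκ.at (fun t : (ℕ × ℕ) × (ℕ × ℕ) => (t.1.1, t.2.1)) a.2
    have b2 := hκ.at (fun t : (ℕ × ℕ) × (ℕ × ℕ) => t.1) b.2
    have c2 := hκ.at (fun t : (ℕ × ℕ) × (ℕ × ℕ) => t.2) c.2
    refine (sst_iff (κ := κ) (fun t : (ℕ × ℕ) × (ℕ × ℕ) => (t.1.2, t.2.2))).2 ⟨?_, ?_⟩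
    · exact hκ.st_map id Primrec.id (fun t : (ℕ × ℕ) × (ℕ × ℕ) => t.1.1)
        (fun t : (ℕ × ℕ) × (ℕ × ℕ) => t.1.2) (fun t ht => Eq.symm ht) b2 a.1
    · have e1 : Ent m' (κ ((ℕ × ℕ) × (ℕ × ℕ)) {t | t.2.1 = t.1.2 + 1}) := by
        refine hκ.and a2 b2 ?_
        rintro t ⟨ht1, ht2⟩
        have ht1' : t.2.1 = t.1.1 + 1 := ht1
        have ht2' : t.1.1 = t.1.2 := ht2
        simp only [Set.mem_ofPred_eq]
        omega
      refine hκ.to (B := {t : (ℕ × ℕ) × (ℕ × ℕ) | t.2.2 = t.1.2 + 1}) _ (hκ.and e1 c2 ?_)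
        (fun t ht => ht)
      rintro t ⟨ht1, ht2⟩
      exact Eq.trans (Eq.symm ht2) ht1
  single := by
    intro m hm
    have h := (hm m).1 (Ent.refl m)
    have a := (sst_iff (κ := κ) (fun t : ℕ × (ℕ × ℕ) => (t.1, t.2.1))).1 h.1
    have b := (sst_iff (κ := κ) (fun t : ℕ × (ℕ × ℕ) => (t.1, t.2.2))).1 h.2
    have a2 := hκ.at (fun t : ℕ × (ℕ × ℕ) => (t.1, t.2.1)) a.2
    have b2 := hκ.at (fun t : ℕ × (ℕ × ℕ) => (t.1, t.2.2)) b.2
    refine (est_iff (κ := κ) (fun t : ℕ × (ℕ × ℕ) => t.2)).2 ⟨?_, ?_⟩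
    · exact hκ.st_map Nat.succ Primrec.succ (fun t : ℕ × (ℕ × ℕ) => t.1)
        (fun t : ℕ × (ℕ × ℕ) => t.2.1) (fun t ht => ht) a2 a.1
    · refine hκ.to (B := {t : ℕ × (ℕ × ℕ) | t.2.1 = t.2.2}) _ (hκ.and a2 b2 ?_)
        (fun t ht => ht)
      rintro t ⟨ht1, ht2⟩
      exact Eq.trans ht1 (Eq.symm ht2)
  total := by
    intro D hD
    have h1 := ((hD D).1 (Ent.refl D)).comp (fun n : ℕ => (n, n + 1))
    have h := (est_iff (κ := κ) (m := fun n : ℕ => Est κ (n, n)) (fun n : ℕ => (n, n))).1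
      (Ent.refl _)
    have h2 : Ent (fun n : ℕ => Est κ (n, n)) (fun n : ℕ => Sst κ (n, n + 1)) := by
      refine (sst_iff (κ := κ) (fun n : ℕ => (n, n + 1))).2 ⟨h.1, ?_⟩
      exact hκ.to _ (hκ.univ _) (fun p _ => rfl)
    exact h2.trans h1

theorem isFun_id (hκ : Good κ) :
    IsFun (κ (ℕ × ℕ) (diag ℕ)) (κ (ℕ × ℕ) (diag ℕ)) (κ (ℕ × ℕ) (diag ℕ)) where
  strict_left := hκ.to _ (hκ.univ _) (fun p _ => rfl)
  strict_right := hκ.to _ (hκ.univ _) (fun p _ => rfl)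
  relational := by
    intro m m' hm hm'
    have h0 := (hm' m').1 (Ent.refl m')
    have h1 := (hm m).1 (Ent.refl m)
    have a2 := hκ.at (fun t : (ℕ × ℕ) × (ℕ × ℕ) => (t.1.1, t.2.1)) (h0.1.trans h1.1)
    have b2 := hκ.at (fun t : (ℕ × ℕ) × (ℕ × ℕ) => t.1) (h0.1.trans h1.2)
    have c2 := hκ.at (fun t : (ℕ × ℕ) × (ℕ × ℕ) => t.2) h0.2
    have e1 : Ent m' (κ ((ℕ × ℕ) × (ℕ × ℕ)) {t | t.2.1 = t.1.2}) := by
      refine hκ.and a2 b2 ?_
      rintro t ⟨ht1, ht2⟩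
      exact Eq.trans (Eq.symm ht1) ht2
    refine hκ.to (B := {t : (ℕ × ℕ) × (ℕ × ℕ) | t.1.2 = t.2.2}) _ (hκ.and e1 c2 ?_)
      (fun t ht => ht)
    rintro t ⟨ht1, ht2⟩
    exact Eq.trans (Eq.symm ht1) ht2
  single := by
    intro m hm
    have h := (hm m).1 (Ent.refl m)
    have a2 := hκ.at (fun t : ℕ × (ℕ × ℕ) => (t.1, t.2.1)) h.1
    have b2 := hκ.at (fun t : ℕ × (ℕ × ℕ) => (t.1, t.2.2)) h.2
    refine hκ.to (B := {t : ℕ × (ℕ × ℕ) | t.2.1 = t.2.2}) _ (hκ.and a2 b2 ?_)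
      (fun t ht => ht)
    rintro t ⟨ht1, ht2⟩
    exact Eq.trans (Eq.symm ht1) ht2
  total := by
    intro D hD
    exact ((hD D).1 (Ent.refl D)).comp (fun n : ℕ => (n, n))

/-- Composition of graphs. -/
theorem Good.isComp (hκ : Good κ) {X Y Z : Type} {A : Set (X × Y)} {B : Set (Y × Z)}
    {C : Set (X × Z)} (f : X → Y) (hC : ∀ x y z, (x, y) ∈ A → (y, z) ∈ B → (x, z) ∈ C)
    (hA : ∀ x, (x, f x) ∈ A) (hB : ∀ x z, (x, z) ∈ C → (f x, z) ∈ B) :
    IsComp (κ (X × Y) A) (κ (Y × Z) B) (κ (X × Z) C) := by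
  refine ⟨κ (X × Y × Z) ({t | (t.1, t.2.1) ∈ A} ∩ {t | (t.2.1, t.2.2) ∈ B}), ?_, ?_⟩
  · have h := hκ.meet {t : X × Y × Z | (t.1, t.2.1) ∈ A} {t | (t.2.1, t.2.2) ∈ B}
    have e1 : κ (X × Y × Z) {t : X × Y × Z | (t.1, t.2.1) ∈ A} =
        fun t : X × Y × Z => κ (X × Y) A (t.1, t.2.1) :=
      (hκ.re (fun t : X × Y × Z => (t.1, t.2.1)) A).symm
    have e2 : κ (X × Y × Z) {t : X × Y × Z | (t.2.1, t.2.2) ∈ B} =
        fun t : X × Y × Z => κ (Y × Z) B (t.2.1, t.2.2) :=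
      (hκ.re (fun t : X × Y × Z => (t.2.1, t.2.2)) B).symm
    rw [e1, e2] at h
    exact h
  · intro θ
    constructor
    · intro h
      have h1 := h.comp (fun t : X × Y × Z => (t.1, t.2.2))
      have h2 := hκ.to (A := C) (fun t : X × Y × Z => (t.1, t.2.2))
        (Ent.refl (κ (X × Y × Z) ({t | (t.1, t.2.1) ∈ A} ∩ {t | (t.2.1, t.2.2) ∈ B})))
        (fun t ht => hC _ _ _ ht.1 ht.2)
      exact h2.trans h1
    · intro h
      have h1 := h.comp (fun p : X × Z => (p.1, f p.1, p.2))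
      have h2 := hκ.to (A := {t : X × Y × Z | (t.1, t.2.1) ∈ A} ∩ {t | (t.2.1, t.2.2) ∈ B})
        (fun p : X × Z => (p.1, f p.1, p.2)) (Ent.refl (κ (X × Z) C))
        (fun p hp => ⟨hA _, hB _ _ hp⟩)
      exact h2.trans h1

theorem not_isNNO (hκ : Good κ) :
    ¬ IsNNO (κ (ℕ × ℕ) (diag ℕ)) (κ (Unit × ℕ) zeroGraph) (κ (ℕ × ℕ) succGraph) := by
  rintro ⟨hobj, hz, hs, hrec⟩
  obtain ⟨h, ⟨hfun, hcz, k, hk1, hk2⟩, -⟩ := hrec ℕ (Est κ) (κ (Unit × ℕ) zeroGraph) (Sst κ)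
    (isObj_est hκ) (isFun_zero_est hκ) (isFun_sst hκ)
  -- `h` is also a morphism to `∇ℕ`
  have hst : Ent h (fun p => st p.2) :=
    ((est_iff (κ := κ) (fun p : ℕ × ℕ => (p.2, p.2))).1 hfun.strict_right).1
  have hfun' : IsFun (κ (ℕ × ℕ) (diag ℕ)) (κ (ℕ × ℕ) (diag ℕ)) h := by
    refine ⟨hfun.strict_left, ?_, ?_, ?_, hfun.total⟩
    · exact hκ.to _ (hκ.univ _) (fun p _ => rfl)
    · intro m m' hm hm'
      have h0 := (hm' m').1 (Ent.refl m')
      have h1 := (hm m).1 (Ent.refl m)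
      have hst' : Ent m' (fun t : (ℕ × ℕ) × (ℕ × ℕ) => st t.2.1) := by
        have := hst.comp (fun t : (ℕ × ℕ) × (ℕ × ℕ) => (t.1.1, t.2.1))
        exact (h0.1.trans h1.1).trans this
      refine Ent.trans ?_ (hfun.relational m (meet m (fun t => Est κ t.2)) hm (isMeet_meet _ _))
      refine meet_intro h0.1 ?_
      exact (est_iff (κ := κ) (fun t : (ℕ × ℕ) × (ℕ × ℕ) => t.2)).2 ⟨hst', h0.2⟩
    · intro m hm
      have := hfun.single m hm
      exact ((est_iff (κ := κ) (fun t : ℕ × (ℕ × ℕ) => t.2)).1 this).2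
  have hk3 : IsComp h (κ (ℕ × ℕ) succGraph) k := by
    obtain ⟨m, hm, hex⟩ := hk2
    refine ⟨m, ?_, hex⟩
    intro θ
    rw [hm θ]
    constructor
    · rintro ⟨a, b⟩
      exact ⟨a, ((sst_iff (κ := κ) (fun t : ℕ × ℕ × ℕ => (t.2.1, t.2.2))).1 b).2⟩
    · rintro ⟨a, b⟩
      refine ⟨a, (sst_iff (κ := κ) (fun t : ℕ × ℕ × ℕ => (t.2.1, t.2.2))).2 ⟨?_, b⟩⟩
      have := hst.comp (fun t : ℕ × ℕ × ℕ => (t.1, t.2.1))
      exact a.trans this
  obtain ⟨h0, -, huniq⟩ := hrec ℕ (κ (ℕ × ℕ) (diag ℕ)) (κ (Unit × ℕ) zeroGraph)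
    (κ (ℕ × ℕ) succGraph) hobj hz hs
  have e1 : Equ h0 h := huniq h ⟨hfun', hcz, k, hk1, hk3⟩
  have e2 : Equ h0 (κ (ℕ × ℕ) (diag ℕ)) := by
    refine huniq _ ⟨isFun_id hκ, ?_, κ (ℕ × ℕ) succGraph, ?_, ?_⟩
    · exact hκ.isComp (fun _ => 0) (fun x y z hxy hyz => Eq.trans (Eq.symm hyz) hxy)
        (fun _ => rfl) (fun x z hz => Eq.symm hz)
    · exact hκ.isComp (fun x => x + 1) (fun x y z hxy hyz => Eq.trans (Eq.symm hyz) hxy)
        (fun _ => rfl) (fun x z hz => Eq.symm hz)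
    · refine hκ.isComp (fun x => x) (fun x y z hxy hyz => ?_) (fun _ => rfl) (fun x z hz => hz)
      have hxy' : x = y := hxy
      subst hxy'
      exact hyz
  have h5 : Ent (κ (ℕ × ℕ) (diag ℕ)) (fun p => st p.2) := (e2.2.trans e1.1).trans hst
  have h6 := h5.comp (fun n : ℕ => (n, n))
  have h7 := hκ.to (A := diag ℕ) (fun n : ℕ => (n, n)) (hκ.univ (fun _ : ℕ => topS))
    (fun _ _ => rfl)
  exact not_top_st (h7.trans h6)

end

end Pool.Agent.R625.Dst
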